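import Pool.Agent.Lib.MP_c05f82_nt.FlatInv

set_option autoImplicit false

namespace Pool.Agent.Lib.MP_c05f82_nt.Flat

open Finset

lemma force_eq (n : ℕ) (k : ℕ → Bool) : force n k = k n := by cases n <;> rfl

lemma len_eq : ∀ L : List ℕ, len L = L.length
  | [] => rfl
  | _ :: L => congrArg Nat.succ (len_eq L)

lemma pr_eq : ∀ L : List ℕ, pr L = L.prod
  | [] => rfl
  | p :: L => by rw [List.prod_cons, ← pr_eq L]; rfl

lemma cond_and {a b : Bool} (h : cond a b false = true) : a = true ∧ b = true := by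
  cases a <;> simp_all

lemma nub_false {N G a g F y : ℕ} {L : List ℕ} {U : Finset ℕ} (hN : N + 1 = 2 ^ (a + 1))
    (hG : G = 2 ^ g) (h : Inv N G L F y U) : nub (G * L.prod) F L.length y = false := by
  have h1 := upper hN hG h
  have hy := h.2.2.1
  have h6 := log2_one hy
  have h2 := W_pow (y := y) (by omega) L
  have h3 : ((G * L.prod : ℕ) : ℚ) < F * (Hq (Nat.log2 y) * Gq y ^ L.length) :=
    h1.trans_le (mul_le_mul_of_nonneg_left (mul_le_mul_of_nonneg_left h2
      (le_trans zero_le_one (Hq_one h6))) (by positivity))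
  have h4 : (0 : ℚ) < Hd (Nat.log2 y) := by exact_mod_cast (Hd_pos h6).1
  have h5 : (3 : ℚ) ≤ y := by exact_mod_cast hy
  have h7 : (0 : ℚ) < ((y : ℚ) - 1) ^ L.length := pow_pos (by linarith) _
  unfold Hq Gq at h3
  rw [div_pow, div_mul_div_comm, ← mul_div_assoc, lt_div_iff₀ (mul_pos h4 h7)] at h3
  have h8 : ((y - 1 : ℕ) : ℚ) = y - 1 := by rw [Nat.cast_sub (by omega)]; simp
  rw [← h8] at h3
  have h9 : G * L.prod * (Hd (Nat.log2 y) * (y - 1) ^ L.length)
      < F * (Hn (Nat.log2 y) * (y + 1) ^ L.length) := by exact_mod_cast h3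
  rw [← Bool.not_eq_true]
  intro h10
  have h11 : Hn (Nat.log2 y) * (y + 1) ^ L.length * F
      ≤ G * L.prod * (Hd (Nat.log2 y) * (y - 1) ^ L.length) := Nat.le_of_ble_eq_true h10
  rw [mul_comm F] at h9
  omega

lemma loop_spec {cb : ℕ → ℕ → Bool} {hi : ℕ} : ∀ (fu w x : ℕ), loop cb hi fu w x = true →
    ∀ j, x * 2 ^ j ≤ hi → cb (w * 2 ^ j) (x * 2 ^ j) = true
  | 0, _, _, h, _, _ => by simp [loop] at h
  | fu + 1, w, x, h, j, hj => by
      have h1 : x ≤ hi := le_trans (Nat.le_mul_of_pos_right x (by positivity)) hj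
      change cond (Nat.ble x hi) (cond (cb w x) (loop cb hi fu (2 * w) (2 * x)) false) true = true at h
      rw [Nat.ble_eq_true_of_le h1, cond_true] at h
      obtain ⟨h2, h3⟩ := cond_and h
      cases j with
      | zero => simpa using h2
      | succ j =>
        have := loop_spec fu _ _ h3 j (by rw [pow_succ] at hj; nlinarith)
        rw [pow_succ]
        convert this using 2 <;> ring

lemma go_spec {cb : ℕ → List ℕ → Bool} {hi : ℕ} : ∀ (L : List ℕ) (d : ℕ) (R : List ℕ),
    (∀ p ∈ L, p.Prime) → go cb hi L d R = true → ∀ e, 0 < e → e ∣ L.prod → 2 * (d * e) ≤ hi →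
      ∃ D S : List ℕ, (L ++ R).Perm (D ++ S) ∧ D.prod = e ∧ cb (d * e) S = true
  | [], d, R, _, h, e, _, he, _ => by
      have : e = 1 := by simpa using he
      subst this
      exact ⟨[], R, by simp, rfl, by rw [mul_one]; exact h⟩
  | p :: L, d, R, hp, h, e, h0, he, hh => by
      have hpp := hp p (by simp)
      have hL : ∀ q ∈ L, q.Prime := fun q hq => hp q (by simp [hq])
      change cond (go cb hi L d (p :: R))
        (cond (Nat.ble (2 * (d * p)) hi) (go cb hi L (d * p) R) true) false = true at h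
      obtain ⟨h1, h2⟩ := cond_and h
      rw [List.prod_cons] at he
      by_cases hd : p ∣ e
      · obtain ⟨e', rfl⟩ := hd
        have h3 : 0 < e' := Nat.pos_of_mul_pos_left h0
        have h4 : 2 * (d * p) ≤ hi := le_trans (by
          refine Nat.mul_le_mul_left 2 (Nat.mul_le_mul_left d (Nat.le_mul_of_pos_right p h3))) hh
        rw [Nat.ble_eq_true_of_le h4, cond_true] at h2
        obtain ⟨D, S, h5, h6, h7⟩ := go_spec L (d * p) R hL h2 e' h3
          (Nat.dvd_of_mul_dvd_mul_left hpp.pos he) (by rw [mul_assoc d]; exact hh)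
        exact ⟨p :: D, S, h5.cons p, by simp [h6], by rw [← mul_assoc]; exact h7⟩
      · have hc : Nat.Coprime e p := ((hpp.coprime_iff_not_dvd).2 hd).symm
        obtain ⟨D, S, h5, h6, h7⟩ := go_spec L d (p :: R) hL h1 e h0 (hc.dvd_of_dvd_mul_left he) hh
        exact ⟨D, S, List.perm_middle.symm.trans h5, h6, h7⟩

lemma st_le {y d i l : ℕ} (hy : 3 ≤ y) (hl : y ≤ l) (hi : 1 ≤ i) (hid : l + 1 = 2 ^ i * d) :
    ∃ j, st y d * 2 ^ j = 2 ^ i := by
  have h1 : 2 ^ Nat.log2 y ≤ y := Nat.log2_self_le (by omega)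
  have h2 : d < 2 ^ (Nat.log2 d + 1) := Nat.lt_log2_self
  have h3 : 2 ^ Nat.log2 y < 2 ^ (i + (Nat.log2 d + 1)) := by
    rw [pow_add]
    have : 2 ^ i * d < 2 ^ i * 2 ^ (Nat.log2 d + 1) := Nat.mul_lt_mul_of_pos_left h2 (by positivity)
    omega
  have h4 := (Nat.pow_lt_pow_iff_right (by norm_num : 1 < 2)).1 h3
  refine ⟨i - (Nat.log2 y - (Nat.log2 d + 1) + 1), ?_⟩
  change 2 ^ (Nat.log2 y - (Nat.log2 d + 1) + 1) * _ = _
  rw [← pow_add]
  congr 1
  omega

theorem chk_sound {N G a g : ℕ} (hN : N + 1 = 2 ^ (a + 1)) (hG : G = 2 ^ g) :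
    ∀ (fu : ℕ) (L : List ℕ) (F P y : ℕ) (U : Finset ℕ), chk G fu L F P y = true →
      Inv N G L F y U → U.Nonempty → 2 ^ a * (P * ∏ l ∈ U, l) ∈ sols := by
  intro fu
  induction fu with
  | zero => intro L F P y U h; simp [chk] at h
  | succ fu ih =>
    intro L F P y U h hI hne
    change force (len L) (fun c => force (pr L) fun T0 =>
      force (findHi (G * T0) F c 120 (guess (G * T0) F c y)) fun hi =>
        node G (chk G fu) L F P y c T0 hi) = true at h
    rw [force_eq, force_eq, force_eq, len_eq, pr_eq] at h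
    generalize findHi (G * L.prod) F L.length 120 (guess (G * L.prod) F L.length y) = hi at h
    unfold node at h
    obtain ⟨h1, h⟩ := cond_and h
    obtain ⟨h2, h3⟩ := cond_and h
    have h1 : y ≤ hi := Nat.le_of_ble_eq_true h1
    have hy := hI.2.2.1
    obtain ⟨l, hl, hmin⟩ := U.exists_min_image id hne
    have hyl := (hI.2.1 l hl).2
    have hlt : l < hi := by
      by_contra h0
      have := nub_false hN hG (hI.mono (z := hi) (by omega)
        fun x hx => le_trans (not_lt.1 h0) (hmin x hx))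
      change nub (G * L.prod) F L.length hi = true at h2
      rw [this] at h2
      exact absurd h2 (by simp)
    obtain ⟨i, d, hi1, hid, hd, hdv⟩ := step_dvd hN hG hI hl hmin
    have h8 : 2 * d ≤ l + 1 := by
      rw [hid]
      exact Nat.mul_le_mul_right d (by
        calc 2 = 2 ^ 1 := rfl
          _ ≤ 2 ^ i := Nat.pow_le_pow_right (by norm_num) hi1)
    obtain ⟨D, S, hp, hD, h4⟩ := go_spec L 1 [] (fun p hp => (hI.1 p hp).1) h3 d hd hdv (by omega)
    rw [List.append_nil] at hp
    rw [one_mul, force_eq, force_eq, force_eq] at h4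
    obtain ⟨j, hj⟩ := st_le hy hyl hi1 hid
    have hx : Nat.mul (st y d) d * 2 ^ j = l + 1 := by
      change st y d * d * 2 ^ j = l + 1
      rw [hid, ← hj]; ring
    have h5 := loop_spec _ _ _ h4 j (by rw [hx]; omega)
    have hS : Nat.div L.prod d = S.prod := by
      change L.prod / d = S.prod
      rw [hp.prod_eq, List.prod_append, hD, Nat.mul_div_cancel_left _ hd]
    have hl1 : Nat.sub (l + 1) 1 = l := rfl
    simp only [hx, hj, force_eq, hS, hl1] at h5
    have hI' := step_inv hI hl hmin hid hd hp hD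
    unfold cand at h5
    rw [Nat.ble_eq_true_of_le hyl, cond_true, comp_false (hI.2.1 l hl).1, cond_false] at h5
    obtain ⟨h6, h7⟩ := cond_and h5
    rw [← Finset.mul_prod_erase U (fun l => l) hl, ← mul_assoc P]
    rcases (U.erase l).eq_empty_or_nonempty with he | he
    · rw [he] at hI' ⊢
      obtain ⟨h9, h10⟩ := terminal hN hG hI'
      rw [List.prod_cons] at h9 h10
      change cond (Nat.beq ((l * S.prod + 1) * G) (F * 2 ^ i))
        (sols.contains ((l * S.prod + 1) / 2 * (P * l))) true = true at h6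
      rw [h10, Nat.beq_refl, cond_true, h9, hN, pow_succ, Nat.mul_div_cancel _ (by norm_num)] at h6
      simpa using h6
    · have h9 := lower hN hI' he
      rw [List.prod_cons] at h9
      have h10 := nub_false hN hG (hI.mono (z := l) (by omega) hmin)
      change cond (Nat.ble (F * 2 ^ i) (G * (l * S.prod)))
        (cond (nub (G * L.prod) F L.length l) true
          (force (F * 2 ^ i) fun F' => force (P * l) fun P' => chk G fu (l :: S) F' P' (l + 1)))
        true = true at h7
      rw [Nat.ble_eq_true_of_le h9, cond_true, h10, cond_false, force_eq, force_eq] at h7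
      exact ih _ _ _ _ _ h7 hI' he

theorem roots : ∀ k < 34, 3 ≤ k → root k = true := by decide +kernel

end Pool.Agent.Lib.MP_c05f82_nt.Flat
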