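import Pool.Agent.Lib.MP_c05f82_nt.FlatMath

set_option autoImplicit false

namespace Pool.Agent.Lib.MP_c05f82_nt.Flat

open Finset

/-- state of the search: `U` is the set of primes still to come, `L` the primes not yet produced -/
def Inv (N G : ℕ) (L : List ℕ) (F y : ℕ) (U : Finset ℕ) : Prop :=
  (∀ p ∈ L, p.Prime ∧ p ≠ 2) ∧ (∀ l ∈ U, l.Prime ∧ y ≤ l) ∧ 3 ≤ y ∧ (∃ f, F = 2 ^ f) ∧
    N * (∏ l ∈ U, (l + 1)) * F = G * L.prod * (N + 1) * ∏ l ∈ U, l

lemma Inv.mono {N G F y z : ℕ} {L : List ℕ} {U : Finset ℕ} (h : Inv N G L F y U) (hz : 3 ≤ z)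
    (hU : ∀ l ∈ U, z ≤ l) : Inv N G L F z U :=
  ⟨h.1, fun l hl => ⟨(h.2.1 l hl).1, hU l hl⟩, hz, h.2.2.2.1, h.2.2.2.2⟩

lemma odd_prod : ∀ L : List ℕ, (∀ p ∈ L, p.Prime ∧ p ≠ 2) → Odd L.prod
  | [], _ => by simp
  | p :: L, h => by
      rw [List.prod_cons]
      exact ((h p (by simp)).1.odd_of_ne_two (h p (by simp)).2).mul
        (odd_prod L fun q hq => h q (by simp [hq]))

lemma cop_two {d : ℕ} (hd : Odd d) (f : ℕ) : Nat.Coprime d (2 ^ f) :=
  Nat.Coprime.pow_right f (Nat.coprime_two_right.2 hd)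

/-- the smallest remaining prime -/
lemma step_dvd {N G F y a g l : ℕ} {L : List ℕ} {U : Finset ℕ} (hN : N + 1 = 2 ^ (a + 1))
    (hG : G = 2 ^ g) (h : Inv N G L F y U) (hl : l ∈ U) (hmin : ∀ x ∈ U, l ≤ x) :
    ∃ i d, 1 ≤ i ∧ l + 1 = 2 ^ i * d ∧ 0 < d ∧ d ∣ L.prod := by
  obtain ⟨-, hU, hy, -, he⟩ := h
  obtain ⟨i, d, hd, hid⟩ := Nat.exists_eq_two_pow_mul_odd (n := l + 1) (by omega)
  have hlo : Odd l := (hU l hl).1.odd_of_ne_two (by have := (hU l hl).2; omega)
  have hi : 1 ≤ i := by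
    by_contra h0
    have : i = 0 := by omega
    subst this
    obtain ⟨u, hu⟩ := hlo
    obtain ⟨v, hv⟩ := hd
    omega
  have hd0 : 0 < d := hd.pos
  have h2 : 2 * d ≤ l + 1 := by
    rw [hid]
    exact Nat.mul_le_mul_right d (by
      calc 2 = 2 ^ 1 := rfl
        _ ≤ 2 ^ i := Nat.pow_le_pow_right (by norm_num) hi)
  have h3 := (hU l hl).2
  refine ⟨i, d, hi, hid, hd0, ?_⟩
  have h4 : d ∣ G * L.prod * (N + 1) * ∏ l ∈ U, l := by
    rw [← he]
    exact Dvd.dvd.mul_right (Dvd.dvd.mul_left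
      ((Dvd.intro_left _ hid.symm).trans (Finset.dvd_prod_of_mem (fun l => l + 1) hl)) _) _
  have h5 : Nat.Coprime d (∏ l ∈ U, l) := by
    refine Nat.Coprime.prod_right fun x hx => ?_
    refine (((hU x hx).1.coprime_iff_not_dvd).2 fun hxd => ?_).symm
    have := Nat.le_of_dvd hd0 hxd
    have := hmin x hx
    omega
  have h6 := h5.dvd_of_dvd_mul_right h4
  rw [hN] at h6
  have h7 := (cop_two hd _).dvd_of_dvd_mul_right h6
  rw [hG] at h7
  exact (cop_two hd _).dvd_of_dvd_mul_left h7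

lemma step_inv {N G F y l i d : ℕ} {L D S : List ℕ} {U : Finset ℕ}
    (h : Inv N G L F y U) (hl : l ∈ U) (hmin : ∀ x ∈ U, l ≤ x) (hid : l + 1 = 2 ^ i * d)
    (hd : 0 < d) (hp : L.Perm (D ++ S)) (hD : D.prod = d) :
    Inv N G (l :: S) (F * 2 ^ i) (l + 1) (U.erase l) := by
  obtain ⟨hL, hU, hy, ⟨f, hf⟩, he⟩ := h
  have h3 := (hU l hl).2
  refine ⟨?_, ?_, by omega, ⟨f + i, by rw [hf, pow_add]⟩, ?_⟩
  · intro p hp'
    rcases List.mem_cons.1 hp' with rfl | hp'
    · exact ⟨(hU p hl).1, by omega⟩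
    · exact hL p (hp.mem_iff.2 (by simp [hp']))
  · intro x hx
    have h1 := Finset.mem_erase.1 hx
    have := hmin x h1.2
    exact ⟨(hU x h1.2).1, by have := h1.1; omega⟩
  · rw [← Finset.mul_prod_erase U (fun l => l + 1) hl, ← Finset.mul_prod_erase U (fun l => l) hl,
      hp.prod_eq, List.prod_append, hD] at he
    simp only [hid] at he
    rw [List.prod_cons]
    refine Nat.eq_of_mul_eq_mul_left hd ?_
    calc d * (N * (∏ x ∈ U.erase l, (x + 1)) * (F * 2 ^ i))
        = N * (2 ^ i * d * ∏ x ∈ U.erase l, (x + 1)) * F := by ring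
      _ = _ := he
      _ = _ := by ring

def Iq (U : Finset ℕ) : ℚ := ∏ l ∈ U, (((l : ℚ) + 1) / l)

lemma log2_one {y : ℕ} (hy : 3 ≤ y) : 1 ≤ Nat.log2 y := by
  rw [Nat.le_log2 (by omega)]; omega

/-- the tail bound -/
lemma tail {N G a g : ℕ} (hN : N + 1 = 2 ^ (a + 1)) (hG : G = 2 ^ g) :
    ∀ (n : ℕ) (U : Finset ℕ) (L : List ℕ) (F y : ℕ), U.card = n → Inv N G L F y U →
      Iq U ≤ Hq (Nat.log2 y) * W y L := by
  intro n
  induction n with
  | zero =>
    intro U L F y hc h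
    rw [Finset.card_eq_zero.1 hc]
    simp only [Iq, Finset.prod_empty]
    exact one_le_mul_of_one_le_of_one_le (Hq_one (log2_one h.2.2.1))
      (W_one (by have := h.2.2.1; omega) L)
  | succ n ih =>
    intro U L F y hc h
    have hne : U.Nonempty := Finset.card_pos.1 (by omega)
    obtain ⟨l, hl, hmin⟩ := U.exists_min_image id hne
    obtain ⟨i, d, hi, hid, hd, hdv⟩ := step_dvd hN hG h hl hmin
    obtain ⟨D, S, hp, hD⟩ := exists_split L d (fun p hp => (h.1 p hp).1) hdv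
    have h1 := ih _ _ _ _ (by rw [Finset.card_erase_of_mem hl]; omega)
      (step_inv h hl hmin hid hd hp hD)
    have hy := h.2.2.1
    have hyl := (h.2.1 l hl).2
    have hl0 : (0 : ℚ) < l := by exact_mod_cast (by omega : 0 < l)
    have h2 : Iq U = ((l : ℚ) + 1) / l * Iq (U.erase l) := by
      unfold Iq
      rw [← Finset.mul_prod_erase U (fun l : ℕ => ((l : ℚ) + 1) / l) hl]
    rw [W_cons, max_eq_right (by omega)] at h1
    have h3 : Iq U ≤ Gq l * Hq (Nat.log2 (l + 1)) * W (l + 1) S := by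
      rw [h2, ← Gq_step (l := l) (by omega)]
      calc ((l : ℚ) + 1) / l * Iq (U.erase l)
          ≤ ((l : ℚ) + 1) / l * (Hq (Nat.log2 (l + 1)) * (Gq (2 * l - 1) * W (l + 1) S)) :=
            mul_le_mul_of_nonneg_left h1 (by positivity)
        _ = _ := by ring
    have h4 : W (l + 1) S ≤ W y S := W_anti (by omega) (by omega) S
    have h5 : Nat.log2 y ≤ Nat.log2 (l + 1) := by
      rw [Nat.le_log2 (by omega)]
      exact (Nat.log2_self_le (by omega)).trans (by omega)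
    have h6 := log2_one hy
    have hG1 := Gq_one (x := l) (by omega)
    have hH1 := Hq_one (h6.trans h5)
    have hS1 := W_one (y := l + 1) (by omega) S
    refine h3.trans ?_
    rw [W_perm hp, ← mul_assoc]
    refine mul_le_mul ?_ h4 (by linarith) (mul_nonneg (le_trans zero_le_one (Hq_one h6))
      (le_trans zero_le_one (W_one (by omega) D)))
    cases D with
    | nil =>
      have hd1 : d = 1 := by simpa using hD.symm
      obtain ⟨q, rfl⟩ : ∃ q, i = q + 1 := ⟨i - 1, by omega⟩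
      rw [hd1, mul_one] at hid
      have hlq : l = 2 ^ (q + 1) - 1 := by omega
      have h7 : Nat.log2 y ≤ q := by
        have : Nat.log2 y < q + 1 := by rw [Nat.log2_lt (by omega)]; omega
        omega
      have h8 := (Hq_step (q := q) (by omega)).2 (hlq ▸ (h.2.1 l hl).1)
      rw [hid, Nat.log2_two_pow]
      simp only [W, List.map_nil, List.prod_nil, mul_one]
      rw [hlq]
      exact h8.trans (Hq_anti h6 h7)
    | cons p D =>
      have h7 : p ≤ d := Nat.le_of_dvd hd (by rw [← hD, List.prod_cons]; exact Dvd.intro _ rfl)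
      have h8 : 2 * d ≤ l + 1 := by
        rw [hid]
        exact Nat.mul_le_mul_right d (by
          calc 2 = 2 ^ 1 := rfl
            _ ≤ 2 ^ i := Nat.pow_le_pow_right (by norm_num) hi)
      have h9 : Gq l ≤ Gq (max y (2 * p - 1)) := Gq_anti (by omega) (by omega)
      have h10 := W_one (y := y) (by omega) D
      rw [W_cons, mul_comm]
      refine mul_le_mul (Hq_anti h6 h5) ?_ (by linarith) (le_trans zero_le_one (Hq_one h6))
      calc Gq l ≤ Gq (max y (2 * p - 1)) * 1 := by linarith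
        _ ≤ _ := mul_le_mul_of_nonneg_left h10 (by linarith)

/-- the remaining index is below the tail bound -/
lemma upper {N G a g F y : ℕ} {L : List ℕ} {U : Finset ℕ} (hN : N + 1 = 2 ^ (a + 1))
    (hG : G = 2 ^ g) (h : Inv N G L F y U) :
    ((G * L.prod : ℕ) : ℚ) < F * (Hq (Nat.log2 y) * W y L) := by
  have h1 := tail hN hG _ U L F y rfl h
  obtain ⟨-, hU, hy, ⟨f, hf⟩, he⟩ := h
  have hF : (0 : ℚ) < F := by rw [hf]; positivity
  have hD : (0 : ℚ) < ∏ l ∈ U, (l : ℚ) :=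
    Finset.prod_pos fun l hl => by exact_mod_cast (hU l hl).1.pos
  have hA : (0 : ℚ) < ∏ l ∈ U, ((l : ℚ) + 1) := Finset.prod_pos fun l _ => by positivity
  have he' : (N : ℚ) * (∏ l ∈ U, ((l : ℚ) + 1)) * F
      = ((G * L.prod : ℕ) : ℚ) * (N + 1) * ∏ l ∈ U, (l : ℚ) := by
    have := congrArg (Nat.cast : ℕ → ℚ) he
    push_cast at this ⊢
    exact this
  refine lt_of_lt_of_le ?_ (mul_le_mul_of_nonneg_left h1 hF.le)
  unfold Iq
  rw [Finset.prod_div_distrib, ← mul_div_assoc, lt_div_iff₀ hD]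
  have hN0 : (0 : ℚ) < N + 1 := by positivity
  refine lt_of_mul_lt_mul_left ?_ hN0.le
  have := mul_pos hF hA
  nlinarith

/-- while primes remain, the remaining index is at least one -/
lemma lower {N G a F y : ℕ} {L : List ℕ} {U : Finset ℕ} (hN : N + 1 = 2 ^ (a + 1))
    (h : Inv N G L F y U) (hne : U.Nonempty) : F ≤ G * L.prod := by
  obtain ⟨-, hU, hy, ⟨f, hf⟩, he⟩ := h
  obtain ⟨l, hl, hmax⟩ := U.exists_max_image id hne
  have hlp := (hU l hl).1
  have hly := (hU l hl).2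
  have hN0 : 0 < N := by
    have : 2 ≤ 2 ^ (a + 1) := by
      calc 2 = 2 ^ 1 := rfl
        _ ≤ _ := Nat.pow_le_pow_right (by norm_num) (by omega)
    omega
  have h1 : l ∣ N * (∏ l ∈ U, (l + 1)) * F := by
    rw [he]; exact Dvd.dvd.mul_left (Finset.dvd_prod_of_mem (fun l => l) hl) _
  have hlo : Odd l := hlp.odd_of_ne_two (by omega)
  rw [hf] at h1
  have h2 := (cop_two hlo f).dvd_of_dvd_mul_right h1
  have h3 : Nat.Coprime l (∏ l ∈ U, (l + 1)) := by
    refine Nat.Coprime.prod_right fun x hx => (hlp.coprime_iff_not_dvd).2 fun hd => ?_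
    have hxo : Odd x := (hU x hx).1.odd_of_ne_two (by have := (hU x hx).2; omega)
    have hxl : x ≤ l := hmax x hx
    obtain ⟨c, hc⟩ := hd
    obtain ⟨u, hu⟩ := hlo
    obtain ⟨v, hv⟩ := hxo
    have hc2 : c < 2 := by
      by_contra h0
      have : l * 2 ≤ l * c := Nat.mul_le_mul_left l (by omega)
      omega
    interval_cases c <;> omega
  have h4 : l ≤ N := Nat.le_of_dvd hN0 (h3.dvd_of_dvd_mul_right h2)
  rw [← Finset.mul_prod_erase U (fun l => l + 1) hl, ← Finset.mul_prod_erase U (fun l => l) hl] at he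
  have h5 : ∏ x ∈ U.erase l, x ≤ ∏ x ∈ U.erase l, (x + 1) :=
    Finset.prod_le_prod' fun x _ => Nat.le_succ x
  have h6 : 0 < ∏ x ∈ U.erase l, x :=
    Finset.prod_pos fun x hx => (hU x (Finset.mem_of_mem_erase hx)).1.pos
  generalize ∏ x ∈ U.erase l, x = X at *
  generalize ∏ x ∈ U.erase l, (x + 1) = Y at *
  have h7 : (N + 1) * (l * X) ≤ N * ((l + 1) * Y) := by
    calc (N + 1) * (l * X) = ((N + 1) * l) * X := by ring
      _ ≤ (N * (l + 1)) * Y := Nat.mul_le_mul (by nlinarith) h5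
      _ = _ := by ring
  have h8 : 0 < (N + 1) * (l * X) := Nat.mul_pos (by omega) (Nat.mul_pos hlp.pos h6)
  refine Nat.le_of_mul_le_mul_left ?_ h8
  calc (N + 1) * (l * X) * F ≤ N * ((l + 1) * Y) * F := Nat.mul_le_mul_right F h7
    _ = _ := he
    _ = _ := by ring

/-- no prime is left -/
lemma terminal {N G a g F y : ℕ} {L : List ℕ} (hN : N + 1 = 2 ^ (a + 1)) (hG : G = 2 ^ g)
    (h : Inv N G L F y ∅) : L.prod = N ∧ (L.prod + 1) * G = F := by
  obtain ⟨hL, -, -, ⟨f, hf⟩, he⟩ := h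
  simp only [Finset.prod_empty, mul_one] at he
  have hNo : Odd N := by
    refine ⟨2 ^ a - 1, ?_⟩
    have : 1 ≤ 2 ^ a := Nat.one_le_two_pow
    rw [pow_succ] at hN; omega
  have hLo := odd_prod L hL
  have h1 : N ∣ L.prod := by
    have : N ∣ G * L.prod * (N + 1) := he ▸ Dvd.intro _ rfl
    rw [hN, hG] at this
    exact (cop_two hNo _).dvd_of_dvd_mul_left ((cop_two hNo _).dvd_of_dvd_mul_right this)
  have h2 : L.prod ∣ N := by
    have : L.prod ∣ N * F := by rw [he]; exact Dvd.dvd.mul_right (Dvd.intro_left _ rfl) _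
    rw [hf] at this
    exact (cop_two hLo _).dvd_of_dvd_mul_right this
  have h3 := Nat.dvd_antisymm h2 h1
  refine ⟨h3, ?_⟩
  rw [h3] at he ⊢
  refine Nat.eq_of_mul_eq_mul_left hNo.pos ?_
  rw [he]; ring

end Pool.Agent.Lib.MP_c05f82_nt.Flat
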