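import Pool.Agent.Lib.MP_c05f82_nt.FlatChk

set_option autoImplicit false

open ArithmeticFunction.sigma

namespace Pool.Agent.Lib.MP_c05f82_nt.Flat

open Finset

lemma sigma_flat (a : ℕ) (U : Finset ℕ) (hU : ∀ p ∈ U, p.Prime ∧ p ≠ 2) :
    σ 1 (2 ^ a * ∏ p ∈ U, p) = (2 ^ (a + 1) - 1) * ∏ p ∈ U, (p + 1) := by
  have hc : Nat.Coprime (2 ^ a) (∏ p ∈ U, p) :=
    Nat.Coprime.prod_right fun p hp => (cop_two ((hU p hp).1.odd_of_ne_two (hU p hp).2) a).symm
  rw [ArithmeticFunction.isMultiplicative_sigma.map_mul_of_coprime hc,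
    ArithmeticFunction.sigma_one_apply_prime_pow Nat.prime_two,
    ArithmeticFunction.IsMultiplicative.map_prod (fun p => p)
      ArithmeticFunction.isMultiplicative_sigma U
      (fun p hp q hq hne => (Nat.coprime_primes (hU p hp).1 (hU q hq).1).2 hne)]
  congr 1
  · rw [Nat.geomSum_eq le_rfl]; simp
  · refine Finset.prod_congr rfl fun p hp => ?_
    have := ArithmeticFunction.sigma_one_apply_prime_pow (i := 1) (hU p hp).1
    rw [pow_one] at this
    rw [this]; simp [Finset.sum_range_succ, add_comm]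

lemma W_sq : ∀ L : List ℕ, (∀ p ∈ L, p.Prime ∧ p ≠ 2) → W 3 L ^ 2 ≤ (L.prod : ℕ)
  | [], _ => by simp [W]
  | p :: L, h => by
      have h1 := W_sq L fun q hq => h q (by simp [hq])
      have h2 := (h p (by simp)).1.two_le
      have h3 := (h p (by simp)).2
      have h4 : (3 : ℚ) ≤ p := by exact_mod_cast (by omega : 3 ≤ p)
      have h5 : ((2 * p - 1 : ℕ) : ℚ) = 2 * p - 1 := by
        rw [Nat.cast_sub (by omega)]; push_cast; ring
      have h6 : Gq (2 * p - 1) ^ 2 ≤ p := by
        unfold Gq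
        rw [h5, div_pow, div_le_iff₀ (pow_pos (by linarith) _)]
        nlinarith [mul_nonneg (by linarith : (0 : ℚ) ≤ p) (mul_nonneg (by linarith : (0 : ℚ) ≤ p)
          (by linarith : (0 : ℚ) ≤ p - 3))]
      rw [W_cons, max_eq_right (by omega), mul_pow, List.prod_cons]
      push_cast [Nat.cast_mul] at h1 ⊢
      exact mul_le_mul h6 h1 (by positivity) (by linarith)

lemma Hq1 : Hq (Nat.log2 3) ≤ 29 / 10 := by
  have h1 : (0 : ℚ) < Hd (Nat.log2 3) := by exact_mod_cast (Hd_pos (log2_one le_rfl)).1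
  have h2 : Hn (Nat.log2 3) * 10 ≤ 29 * Hd (Nat.log2 3) := by decide +kernel
  unfold Hq
  rw [div_le_div_iff₀ h1 (by norm_num)]
  exact_mod_cast h2

lemma oddP_prime : ∀ p ∈ oddP, p.Prime ∧ p ≠ 2 := by
  intro p hp
  simp only [oddP, List.mem_cons, List.not_mem_nil, or_false] at hp
  rcases hp with rfl | rfl | rfl | rfl | rfl | rfl | rfl | rfl | rfl | rfl <;> norm_num

theorem forward (a k : ℕ) (U : Finset ℕ) (hU : ∀ p ∈ U, p.Prime ∧ p ≠ 2)
    (h : σ 1 (2 ^ a * ∏ p ∈ U, p) = (2 ^ a * ∏ p ∈ U, p) * k) :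
    k = 2 ∨ 2 ^ a * ∏ p ∈ U, p ∈ sols := by
  rw [sigma_flat a U hU] at h
  have hN : (2 ^ (a + 1) - 1) + 1 = 2 ^ (a + 1) := Nat.sub_add_cancel Nat.one_le_two_pow
  generalize 2 ^ (a + 1) - 1 = N at h hN
  have mk : ∀ (G : ℕ) (L : List ℕ), (∀ p ∈ L, p.Prime ∧ p ≠ 2) → k = G * L.prod →
      Inv N G L 2 3 U := by
    intro G L hL hk
    refine ⟨hL, fun l hl => ⟨(hU l hl).1, ?_⟩, le_rfl, ⟨1, rfl⟩, ?_⟩
    · have := (hU l hl).1.two_le
      have := (hU l hl).2
      omega
    · rw [h, ← hk, hN]; ring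
  have hk0 : k ≠ 0 := by
    rintro rfl
    have h1 : 0 < ∏ p ∈ U, (p + 1) := Finset.prod_pos fun p _ => Nat.succ_pos p
    have h2 : 2 ≤ 2 ^ (a + 1) := by
      calc 2 = 2 ^ 1 := rfl
        _ ≤ _ := Nat.pow_le_pow_right (by norm_num) (by omega)
    have h3 := Nat.mul_pos (by omega : 0 < N) h1
    omega
  obtain ⟨g, m, hm, hk⟩ := Nat.exists_eq_two_pow_mul_odd hk0
  have hL : ∀ p ∈ m.primeFactorsList, p.Prime ∧ p ≠ 2 := by
    intro p hp
    refine ⟨Nat.prime_of_mem_primeFactorsList hp, ?_⟩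
    rintro rfl
    exact hm.not_two_dvd_nat (Nat.dvd_of_mem_primeFactorsList hp)
  have hm' := Nat.prod_primeFactorsList hm.pos.ne'
  have hI := mk (2 ^ g) _ hL (by rw [hm']; exact hk)
  rcases U.eq_empty_or_nonempty with rfl | hne
  · obtain ⟨h1, h2⟩ := terminal hN rfl hI
    rw [h1, hN, ← pow_add] at h2
    have h3 : a + 1 + g = 1 := Nat.pow_right_injective le_rfl (h2.trans (pow_one 2).symm)
    have : a = 0 := by omega
    subst this
    right; simp [sols]
  · have h1 := lower hN hI hne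
    have h2 := upper hN rfl hI
    have h3 := W_sq _ hL
    rw [hm', ← hk] at h1 h2
    rw [hm'] at h3
    have h4 : (m : ℚ) ≤ k := by
      exact_mod_cast (by rw [hk]; exact Nat.le_mul_of_pos_left m (by positivity) : m ≤ k)
    have h5 := W_one (y := 3) (by norm_num) m.primeFactorsList
    have h6 := Hq1
    have h7 : k < 34 := by
      by_contra h0
      have h8 : (34 : ℚ) ≤ k := by exact_mod_cast not_lt.1 h0
      generalize W 3 m.primeFactorsList = w at *
      have h9 : (k : ℚ) < 29 / 5 * w := by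
        have := mul_le_mul_of_nonneg_right h6 (by linarith : 0 ≤ w)
        push_cast at h2
        linarith
      nlinarith
    by_cases h8 : k = 2
    · exact Or.inl h8
    · right
      have h9 := roots k h7 (by omega)
      unfold root at h9
      simp only [Bool.and_eq_true, decide_eq_true_eq, List.all_eq_true, List.contains_iff_mem] at h9
      have := chk_sound hN rfl _ _ _ _ _ U h9.2
        (mk _ _ (fun p hp => oddP_prime p (h9.1.2 p hp)) h9.1.1) hne
      rwa [one_mul] at this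

lemma back (a : ℕ) (U : Finset ℕ) (n : ℕ) (hU : ∀ p ∈ U, p.Prime ∧ p ≠ 2)
    (h1 : n = 2 ^ a * ∏ p ∈ U, p) (h2 : n ∣ (2 ^ (a + 1) - 1) * ∏ p ∈ U, (p + 1)) : n ∣ σ 1 n := by
  rw [← sigma_flat a U hU, ← h1] at h2
  exact h2

lemma backward : ∀ n ∈ sols, n ∣ σ 1 n := by
  intro n hn
  simp only [sols, List.mem_cons, List.not_mem_nil, or_false] at hn
  rcases hn with rfl | rfl | rfl | rfl | rfl | rfl | rfl | rfl | rfl
  · simp
  · exact back 3 {3, 5} _ (by simp; norm_num) (by decide +kernel) (by decide +kernel)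
  · exact back 5 {3, 7} _ (by simp; norm_num) (by decide +kernel) (by decide +kernel)
  · exact back 9 {3, 11, 31} _ (by simp; norm_num) (by decide +kernel) (by decide +kernel)
  · exact back 8 {5, 7, 19, 37, 73} _ (by simp; norm_num) (by decide +kernel) (by decide +kernel)
  · exact back 13 {3, 11, 43, 127} _ (by simp; norm_num) (by decide +kernel) (by decide +kernel)
  · exact back 14 {5, 7, 19, 31, 151} _ (by simp; norm_num) (by decide +kernel) (by decide +kernel)
  · exact back 8 {3, 5, 7, 19, 37, 73} _ (by simp; norm_num) (by decide +kernel)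
      (by decide +kernel)
  · exact back 14 {3, 5, 7, 19, 31, 151} _ (by simp; norm_num) (by decide +kernel)
      (by decide +kernel)

end Pool.Agent.Lib.MP_c05f82_nt.Flat
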