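import Pool.Agent.Lib.MP_c05f82_nt.FlatDef

set_option autoImplicit false

namespace Pool.Agent.Lib.MP_c05f82_nt.Flat

open Finset

/-! ### The compositeness test -/

def prodR : ℕ → ℕ → ℕ
  | 0, lo => lo
  | d + 1, lo => prodR d lo * prodR d (lo + 2 ^ d)

lemma prodR_lt {l : ℕ} (hl : l.Prime) : ∀ d lo : ℕ, 1 ≤ lo → l ∣ prodR d lo → l < lo + 2 ^ d
  | 0, lo, h1, h => by
      have := Nat.le_of_dvd h1 h
      omega
  | d + 1, lo, h1, h => by
      have h2 : 0 < 2 ^ d := by positivity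
      rcases (Nat.Prime.dvd_mul hl).1 h with h | h
      · have := prodR_lt hl d lo h1 h
        rw [pow_succ]; omega
      · have := prodR_lt hl d (lo + 2 ^ d) (by omega) h
        rw [pow_succ]; omega

lemma gcd_one {l Q d : ℕ} (hl : l.Prime) (hQ : Q ∣ prodR d 1) (h : 2 ^ d < l) : Nat.gcd l Q = 1 := by
  rw [← Nat.coprime_iff_gcd_eq_one, hl.coprime_iff_not_dvd]
  intro h1
  have := prodR_lt hl d 1 le_rfl (h1.trans hQ)
  omega

lemma q0 : 3 ∣ prodR 2 1 := by decide +kernel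
lemma q1 : Q1 ∣ prodR 4 1 := by decide +kernel
lemma q2 : Q2 ∣ prodR 8 1 := by decide +kernel
lemma q3 : Q3 ∣ prodR 13 1 := by decide +kernel

lemma comp_false {l : ℕ} (hl : l.Prime) : comp l = false := by
  unfold comp
  by_cases h1 : l ≤ 256
  · rw [Nat.ble_eq_true_of_le h1, cond_true]
    by_cases h2 : l ≤ 16
    · rw [Nat.ble_eq_true_of_le h2, cond_true]
      by_cases h3 : l ≤ 4
      · rw [Nat.ble_eq_true_of_le h3, cond_true]
      · have : Nat.ble l 4 = false := by simpa [← Bool.not_eq_true, Nat.ble_eq] using h3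
        rw [this, cond_false, gcd_one hl q0 (by omega)]; rfl
    · have : Nat.ble l 16 = false := by simpa [← Bool.not_eq_true, Nat.ble_eq] using h2
      rw [this, cond_false, gcd_one hl q1 (by omega)]; rfl
  · have : Nat.ble l 256 = false := by simpa [← Bool.not_eq_true, Nat.ble_eq] using h1
    rw [this, cond_false]
    by_cases h2 : l ≤ 8192
    · rw [Nat.ble_eq_true_of_le h2, cond_true, gcd_one hl q2 (by omega)]; rfl
    · have : Nat.ble l 8192 = false := by simpa [← Bool.not_eq_true, Nat.ble_eq] using h2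
      rw [this, cond_false, gcd_one hl q3 (by omega)]; rfl

/-! ### The potentials -/

def Gq (x : ℕ) : ℚ := ((x : ℚ) + 1) / ((x : ℚ) - 1)

def Hq (q : ℕ) : ℚ := (Hn q : ℚ) / (Hd q : ℚ)

lemma Gq_one {x : ℕ} (h : 2 ≤ x) : 1 ≤ Gq x := by
  have : (2 : ℚ) ≤ x := by exact_mod_cast h
  unfold Gq
  rw [le_div_iff₀ (by linarith)]; linarith

lemma Gq_anti {x y : ℕ} (h : 2 ≤ x) (hxy : x ≤ y) : Gq y ≤ Gq x := by
  have h1 : (2 : ℚ) ≤ x := by exact_mod_cast h
  have h2 : (x : ℚ) ≤ y := by exact_mod_cast hxy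
  unfold Gq
  rw [div_le_div_iff₀ (by linarith) (by linarith)]; nlinarith

lemma Gq_step {l : ℕ} (h : 2 ≤ l) : ((l : ℚ) + 1) / l * Gq (2 * l - 1) = Gq l := by
  have h1 : (2 : ℚ) ≤ l := by exact_mod_cast h
  have h2 : ((2 * l - 1 : ℕ) : ℚ) = 2 * l - 1 := by
    rw [Nat.cast_sub (by omega)]; push_cast; ring
  have h3 : (l : ℚ) - 1 ≠ 0 := by linarith
  have h4 : (l : ℚ) ≠ 0 := by linarith
  have h5 : (2 * (l : ℚ) - 1 - 1) = 2 * (l - 1) := by ring
  unfold Gq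
  rw [h2, h5]; field_simp; ring

lemma H_small : ∀ q < 61, 1 ≤ q → (0 < Hd q ∧ Hd q ≤ Hn q ∧ Hn (q + 1) * Hd q ≤ Hn q * Hd (q + 1) ∧
    (comp (2 ^ (q + 1) - 1) = true ∨
      2 ^ q * Hn (q + 1) * Hd q ≤ Hn q * ((2 ^ q - 1) * Hd (q + 1)))) := by decide +kernel

lemma H_big {q : ℕ} (h : 61 ≤ q) : Hn q = 2 ^ q ∧ Hd q = 2 ^ q - 2 := by
  have : Nat.ble q 60 = false := by
    simpa [← Bool.not_eq_true, Nat.ble_eq] using (by omega : ¬ q ≤ 60)
  unfold Hn Hd
  rw [this]; exact ⟨rfl, rfl⟩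

lemma two_pow_ge {q : ℕ} (h : 61 ≤ q) : 4 ≤ 2 ^ q :=
  calc 4 = 2 ^ 2 := rfl
    _ ≤ 2 ^ q := Nat.pow_le_pow_right (by norm_num) (by omega)

lemma Hd_pos {q : ℕ} (h : 1 ≤ q) : 0 < Hd q ∧ Hd q ≤ Hn q := by
  by_cases h1 : q < 61
  · exact ⟨(H_small q h1 h).1, (H_small q h1 h).2.1⟩
  · have := two_pow_ge (q := q) (by omega)
    rw [(H_big (by omega)).1, (H_big (by omega)).2]; omega

lemma Hq_one {q : ℕ} (h : 1 ≤ q) : 1 ≤ Hq q := by
  have h1 : (0 : ℚ) < Hd q := by exact_mod_cast (Hd_pos h).1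
  have h2 : (Hd q : ℚ) ≤ Hn q := by exact_mod_cast (Hd_pos h).2
  unfold Hq
  rw [le_div_iff₀ h1]; linarith

lemma Hq_big {q : ℕ} (h : 61 ≤ q) : Hq q = (2 : ℚ) ^ q / (2 ^ q - 2) := by
  have := two_pow_ge h
  unfold Hq
  rw [(H_big h).1, (H_big h).2, Nat.cast_sub (by omega)]; push_cast; rfl

lemma Gq_mer {q : ℕ} (h : 1 ≤ q) : Gq (2 ^ (q + 1) - 1) = (2 : ℚ) ^ q / (2 ^ q - 1) := by
  have h0 : 1 ≤ 2 ^ (q + 1) := Nat.one_le_two_pow
  have h1 : (2 : ℚ) ≤ 2 ^ q := by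
    calc (2 : ℚ) = 2 ^ 1 := by norm_num
      _ ≤ 2 ^ q := pow_le_pow_right₀ (by norm_num) h
  have h3 : (2 : ℚ) ^ q - 1 ≠ 0 := by linarith
  have h5 : ((2 : ℚ) ^ (q + 1) - 1 - 1) = 2 * (2 ^ q - 1) := by ring
  unfold Gq
  rw [Nat.cast_sub h0]; push_cast
  rw [h5]; field_simp; ring

lemma Hq_step {q : ℕ} (h : 1 ≤ q) :
    Hq (q + 1) ≤ Hq q ∧ ((2 ^ (q + 1) - 1).Prime → Gq (2 ^ (q + 1) - 1) * Hq (q + 1) ≤ Hq q) := by
  have h1 : (0 : ℚ) < Hd q := by exact_mod_cast (Hd_pos h).1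
  have h2 : (0 : ℚ) < Hd (q + 1) := by exact_mod_cast (Hd_pos (q := q + 1) (by omega)).1
  have h3 : (2 : ℚ) ≤ 2 ^ q := by
    calc (2 : ℚ) = 2 ^ 1 := by norm_num
      _ ≤ 2 ^ q := pow_le_pow_right₀ (by norm_num) h
  rw [Gq_mer h]
  by_cases hq : q < 61
  · obtain ⟨-, -, ha, hb⟩ := H_small q hq h
    refine ⟨?_, fun hp => ?_⟩
    · unfold Hq
      rw [div_le_div_iff₀ h2 h1]; exact_mod_cast ha
    · rcases hb with hb | hb
      · rw [comp_false hp] at hb; exact absurd hb (by simp)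
      · unfold Hq
        rw [div_mul_div_comm, div_le_div_iff₀ (mul_pos (by linarith) h2) h1]
        have h4 : ((2 ^ q - 1 : ℕ) : ℚ) = 2 ^ q - 1 := by
          rw [Nat.cast_sub Nat.one_le_two_pow]; push_cast; rfl
        rw [← h4]; exact_mod_cast hb
  · have h4 : (4 : ℚ) ≤ 2 ^ q := by exact_mod_cast two_pow_ge (q := q) (by omega)
    rw [Hq_big (q := q) (by omega), Hq_big (q := q + 1) (by omega), pow_succ]
    generalize (2 : ℚ) ^ q = x at h4
    refine ⟨?_, fun _ => ?_⟩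
    · rw [div_le_div_iff₀ (by linarith) (by linarith)]; nlinarith
    · rw [div_mul_div_comm, div_le_div_iff₀ (mul_pos (by linarith) (by linarith)) (by linarith)]
      nlinarith

lemma Hq_anti {q r : ℕ} (h : 1 ≤ q) (hqr : q ≤ r) : Hq r ≤ Hq q := by
  induction r, hqr using Nat.le_induction with
  | base => exact le_rfl
  | succ r hr ih => exact (Hq_step (q := r) (by omega)).1.trans ih

def W (y : ℕ) (L : List ℕ) : ℚ := (L.map fun p => Gq (max y (2 * p - 1))).prod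

lemma W_cons (y p : ℕ) (L : List ℕ) : W y (p :: L) = Gq (max y (2 * p - 1)) * W y L := by
  simp [W]

lemma W_one {y : ℕ} (hy : 2 ≤ y) : ∀ L : List ℕ, 1 ≤ W y L
  | [] => by simp [W]
  | p :: L => by
      rw [W_cons]
      exact one_le_mul_of_one_le_of_one_le (Gq_one (by omega)) (W_one hy L)

lemma W_anti {y z : ℕ} (hy : 2 ≤ y) (hyz : y ≤ z) : ∀ L : List ℕ, W z L ≤ W y L
  | [] => by simp [W]
  | p :: L => by
      rw [W_cons, W_cons]
      exact mul_le_mul (Gq_anti (by omega) (by omega)) (W_anti hy hyz L)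
        (le_trans zero_le_one (W_one (by omega) L)) (le_trans zero_le_one (Gq_one (by omega)))

lemma W_pow {y : ℕ} (hy : 2 ≤ y) : ∀ L : List ℕ, W y L ≤ Gq y ^ L.length
  | [] => by simp [W]
  | p :: L => by
      rw [W_cons, List.length_cons, pow_succ']
      exact mul_le_mul (Gq_anti hy (by omega)) (W_pow hy L)
        (le_trans zero_le_one (W_one hy L)) (le_trans zero_le_one (Gq_one hy))

lemma W_perm {y : ℕ} {L D S : List ℕ} (h : L.Perm (D ++ S)) : W y L = W y D * W y S := by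
  unfold W
  rw [(h.map _).prod_eq, List.map_append, List.prod_append]

lemma exists_split : ∀ (L : List ℕ) (e : ℕ), (∀ p ∈ L, p.Prime) → e ∣ L.prod →
    ∃ D S : List ℕ, L.Perm (D ++ S) ∧ D.prod = e
  | [], e, _, h => ⟨[], [], by simp, by simpa [eq_comm] using h⟩
  | p :: L, e, hp, h => by
      have hpp := hp p (by simp)
      have hL : ∀ q ∈ L, q.Prime := fun q hq => hp q (by simp [hq])
      rw [List.prod_cons] at h
      by_cases hd : p ∣ e
      · obtain ⟨e', rfl⟩ := hd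
        obtain ⟨D, S, h1, h2⟩ := exists_split L e' hL (Nat.dvd_of_mul_dvd_mul_left hpp.pos h)
        exact ⟨p :: D, S, h1.cons p, by simp [h2]⟩
      · have hc : Nat.Coprime e p := ((hpp.coprime_iff_not_dvd).2 hd).symm
        obtain ⟨D, S, h1, h2⟩ := exists_split L e hL (hc.dvd_of_dvd_mul_left h)
        exact ⟨D, p :: S, (h1.cons p).trans List.perm_middle.symm, h2⟩

end Pool.Agent.Lib.MP_c05f82_nt.Flat
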