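import Mathlib

set_option autoImplicit false

open Finset ArithmeticFunction.sigma

namespace Pool.Agent.Lib.MP_c05f82_nt

/-- `σ(p^e)` for the exponent `e` of `p` in `m`. -/
def sg (m p : ℕ) : ℕ := ∑ i ∈ range (m.factorization p + 1), p ^ i

lemma sigma_eq {m : ℕ} (hm : m ≠ 0) : σ 1 m = ∏ p ∈ m.primeFactors, sg m p := by
  rw [ArithmeticFunction.sigma_one_apply, Nat.sum_divisors hm]
  rfl

lemma cap {a b m K q : ℕ} (ha : 0 < a) (hm : 0 < m) (h : σ 1 m * b = a * m)
    (hK : ∀ p, m.factorization p ≤ K) (hq : q.Prime) :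
    (m.primeFactors.filter (fun p => q ∣ sg m p)).card ≤ a + K := by
  set T := m.primeFactors.filter (fun p => q ∣ sg m p)
  have h1 : q ^ T.card ∣ σ 1 m := by
    rw [sigma_eq hm.ne']
    calc q ^ T.card = ∏ _p ∈ T, q := by simp
      _ ∣ ∏ p ∈ T, sg m p := prod_dvd_prod_of_dvd _ _ (fun p hp => (mem_filter.mp hp).2)
      _ ∣ _ := prod_dvd_prod_of_subset _ _ _ (filter_subset _ _)
  have h2 : q ^ T.card ∣ a * m := h ▸ h1.mul_right b
  have h3 := (hq.pow_dvd_iff_le_factorization (by positivity)).mp h2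
  rw [Nat.factorization_mul ha.ne' hm.ne'] at h3
  have h4 : a.factorization q < a := Nat.factorization_lt q ha.ne'
  have h5 := hK q
  simp only [Finsupp.add_apply] at h3
  omega

lemma dvd_geom {l D p : ℕ} (h1 : l ∣ D) (h2 : p ≡ 1 [MOD l]) : l ∣ ∑ i ∈ range D, p ^ i := by
  have : (∑ i ∈ range D, p ^ i) ≡ ∑ _i ∈ range D, 1 [MOD l] := by
    apply Nat.ModEq.sum
    intro i _
    simpa using h2.pow i
  simp only [sum_const, card_range, smul_eq_mul, mul_one] at this
  exact (Nat.modEq_zero_iff_dvd).mp (this.trans ((Nat.modEq_zero_iff_dvd).mpr h1))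

lemma zsig {D p : ℕ} (hD : 1 < D) (hp : 2 ≤ p) :
    ∃ q : ℕ, q.Prime ∧ q ∣ ∑ i ∈ range D, p ^ i ∧ (q ∣ D ∨ q ≡ 1 [MOD D]) := by
  have h1 := Polynomial.sub_one_lt_natAbs_cyclotomic_eval (q := p) hD (by omega)
  set c := (Polynomial.cyclotomic D ℤ).eval (p : ℤ) with hc
  obtain ⟨q, hq, hqc⟩ := Nat.exists_prime_and_dvd (n := c.natAbs) (by omega)
  have hqc' : (q : ℤ) ∣ c := Int.natCast_dvd.mpr hqc
  have h2 : c ∣ ((∑ i ∈ range D, p ^ i : ℕ) : ℤ) := by
    have h3 := congrArg (Polynomial.eval (p : ℤ))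
      (Polynomial.prod_cyclotomic_eq_geom_sum (n := D) (by omega) ℤ)
    rw [Polynomial.eval_prod, Polynomial.eval_finsetSum] at h3
    simp only [Polynomial.eval_pow, Polynomial.eval_X] at h3
    push_cast
    rw [← h3]
    exact dvd_prod_of_mem (fun i => (Polynomial.cyclotomic i ℤ).eval (p : ℤ))
      (mem_erase.mpr ⟨by omega, Nat.mem_divisors_self _ (by omega)⟩)
  refine ⟨q, hq, Int.natCast_dvd_natCast.mp (hqc'.trans h2), ?_⟩
  by_cases hqD : q ∣ D
  · exact Or.inl hqD
  right
  have := Fact.mk hq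
  have : NeZero ((D : ℕ) : ZMod q) := ⟨fun h => hqD ((ZMod.natCast_eq_zero_iff D q).mp h)⟩
  have h4 : (Polynomial.cyclotomic D (ZMod q)).IsRoot (p : ZMod q) := by
    have h5 : ((c : ℤ) : ZMod q) = 0 := (ZMod.intCast_zmod_eq_zero_iff_dvd c q).mpr hqc'
    rw [Polynomial.IsRoot.def, ← h5, hc]
    have := Polynomial.cyclotomic.eval_apply (p : ℤ) D (Int.castRingHom (ZMod q))
    simpa using this
  have h6 := Polynomial.isRoot_cyclotomic_iff.mp h4
  have h7 : (p : ZMod q) ≠ 0 := h6.ne_zero (by omega)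
  have h8 := ZMod.orderOf_dvd_card_sub_one h7
  rw [← h6.eq_orderOf] at h8
  exact ((Nat.modEq_iff_dvd' hq.one_le).mpr h8).symm

/-- The bound on the number of prime factors. -/
def ob (a K W : ℕ) : ℕ :=
  ((K + 2) * (a + K) + W + 1) + (K + 2 + a + ((K + 2) * (a + K) + W + 1)) * (a + K)

lemma omega_le {a b m K W : ℕ} (ha : 0 < a) (hm : 0 < m) (h : σ 1 m * b = a * m)
    (hK : ∀ p, m.factorization p ≤ K) (X : Finset ℕ) (hX : X.card ≤ W)
    (hE : ∀ p ∈ m.primeFactors \ X, ∀ q ∈ m.primeFactors \ X, Even (m.factorization p) →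
      Even (m.factorization q) → ¬ Nat.Coprime (m.factorization p + 1) (m.factorization q + 1)) :
    m.primeFactors.card ≤ ob a K W := by
  classical
  set T1 := m.primeFactors.filter
    (fun p => ∃ l : ℕ, l.Prime ∧ l ∣ m.factorization p + 1 ∧ p ≡ 1 [MOD l]) with hT1
  have key : ∀ Q : Finset ℕ, ((Q.filter Nat.Prime).biUnion
      (fun q => m.primeFactors.filter (fun p => q ∣ sg m p))).card ≤ Q.card * (a + K) := by
    intro Q
    calc _ ≤ (Q.filter Nat.Prime).card * (a + K) :=
          card_biUnion_le_card_mul _ _ _ (fun q hq => cap ha hm h hK (mem_filter.mp hq).2)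
      _ ≤ _ := Nat.mul_le_mul_right _ (card_filter_le _ _)
  have c1 : T1.card ≤ (K + 2) * (a + K) := by
    have := key (range (K + 2))
    rw [card_range] at this
    refine le_trans (card_le_card ?_) this
    intro p hp
    obtain ⟨hp1, l, hl, hl1, hl2⟩ := mem_filter.mp hp
    have := Nat.le_of_dvd (by omega) hl1
    have := hK p
    exact mem_biUnion.mpr ⟨l, mem_filter.mpr ⟨mem_range.mpr (by omega), hl⟩,
      mem_filter.mpr ⟨hp1, dvd_geom hl1 hl2⟩⟩
  set T := insert 2 (T1 ∪ X) with hT
  have c2 : T.card ≤ (K + 2) * (a + K) + W + 1 := by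
    have h1 : T.card ≤ (T1 ∪ X).card + 1 := card_insert_le 2 (T1 ∪ X)
    have := card_union_le T1 X
    omega
  have hev : ∀ p ∈ m.primeFactors, p ∉ T → Even (m.factorization p) := by
    intro p hp hpT
    by_contra hodd
    rw [Nat.not_even_iff_odd] at hodd
    apply hpT
    have hp2 : p ≠ 2 := fun h2 => hpT (h2 ▸ mem_insert_self _ _)
    have := (Nat.prime_of_mem_primeFactors hp).odd_of_ne_two hp2
    exact mem_insert_of_mem (mem_union_left _ (mem_filter.mpr ⟨hp, 2, Nat.prime_two,
      hodd.add_one.two_dvd, by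
        unfold Nat.ModEq
        exact Nat.odd_iff.mp this⟩))
  have hnX : ∀ p ∈ m.primeFactors, p ∉ T → p ∈ m.primeFactors \ X := fun p hp hpT =>
    mem_sdiff.mpr ⟨hp, fun hx => hpT (mem_insert_of_mem (mem_union_right _ hx))⟩
  set Q := range (K + 2) ∪ a.primeFactors ∪ T with hQ
  have c3 : Q.card ≤ K + 2 + a + ((K + 2) * (a + K) + W + 1) := by
    have h1 : Q.card ≤ _ := card_union_le (range (K + 2) ∪ a.primeFactors) T
    have h2 := card_union_le (range (K + 2)) a.primeFactors
    have h3 : a.primeFactors.card ≤ a := by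
      calc a.primeFactors.card ≤ (Icc 1 a).card := card_le_card (fun p hp =>
            mem_Icc.mpr ⟨(Nat.prime_of_mem_primeFactors hp).one_le, Nat.le_of_mem_primeFactors hp⟩)
        _ = a := by simp
    rw [card_range] at h2
    omega
  have hsub : m.primeFactors ⊆ T ∪ (Q.filter Nat.Prime).biUnion
      (fun q => m.primeFactors.filter (fun p => q ∣ sg m p)) := by
    intro p hp
    by_cases hpT : p ∈ T
    · exact mem_union_left _ hpT
    apply mem_union_right
    have hpp := Nat.prime_of_mem_primeFactors hp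
    have he : 0 < m.factorization p :=
      hpp.factorization_pos_of_dvd hm.ne' (Nat.dvd_of_mem_primeFactors hp)
    obtain ⟨q, hq, hq1, hq2⟩ := zsig (D := m.factorization p + 1) (p := p) (by omega) hpp.two_le
    refine mem_biUnion.mpr ⟨q, mem_filter.mpr ⟨?_, hq⟩, mem_filter.mpr ⟨hp, hq1⟩⟩
    rcases hq2 with hq2 | hq2
    · have := Nat.le_of_dvd (by omega) hq2
      have := hK p
      exact mem_union_left _ (mem_union_left _ (mem_range.mpr (by omega)))
    have h1 : q ∣ σ 1 m := by
      rw [sigma_eq hm.ne']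
      exact dvd_trans hq1 (dvd_prod_of_mem (sg m) hp)
    have h2 : q ∣ a * m := h ▸ h1.mul_right b
    rcases (Nat.Prime.dvd_mul hq).mp h2 with h3 | h3
    · exact mem_union_left _ (mem_union_right _ (Nat.mem_primeFactors.mpr ⟨hq, h3, ha.ne'⟩))
    have hqm : q ∈ m.primeFactors := Nat.mem_primeFactors.mpr ⟨hq, h3, hm.ne'⟩
    by_cases hqT : q ∈ T
    · exact mem_union_right _ hqT
    exfalso
    have h4 := hE p (hnX p hp hpT) q (hnX q hqm hqT) (hev p hp hpT) (hev q hqm hqT)
    obtain ⟨l, hl, hl1, hl2⟩ := Nat.Prime.not_coprime_iff_dvd.mp h4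
    exact hqT (mem_insert_of_mem (mem_union_left _
      (mem_filter.mpr ⟨hqm, l, hl, hl2, hq2.of_dvd hl1⟩)))
  have c4 := key Q
  have c5 := (card_le_card hsub).trans (card_union_le _ _)
  have c6 := Nat.mul_le_mul_right (a + K) c3
  unfold ob
  omega

lemma small_prime {m W B : ℕ} (hm : 0 < m) (hW : m.primeFactors.card ≤ W) (hB : 0 < B)
    (h : ∀ p ∈ m.primeFactors, B ≤ p) : (σ 1 m : ℚ) * (1 - W / B) ≤ m := by
  have hB' : (1 : ℚ) ≤ B := by exact_mod_cast hB
  have h0 : (0 : ℚ) ≤ 1 - 1 / B := by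
    rw [sub_nonneg, div_le_one (by linarith)]
    exact hB'
  have h1 : (1 : ℚ) - W / B ≤ (1 - 1 / B) ^ m.primeFactors.card := by
    have := one_add_mul_le_pow (a := -(1 / B : ℚ)) (by linarith) m.primeFactors.card
    have h2 : (m.primeFactors.card : ℚ) ≤ W := by exact_mod_cast hW
    have h3 : (m.primeFactors.card : ℚ) * (1 / B) ≤ W / B := by
      rw [mul_one_div]
      gcongr
    calc (1 : ℚ) - W / B ≤ 1 + m.primeFactors.card * -(1 / B) := by linarith
      _ ≤ _ := by simpa [sub_eq_add_neg] using this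
  have h4 : (m : ℚ) = ∏ p ∈ m.primeFactors, (p : ℚ) ^ m.factorization p := by
    conv_lhs => rw [← Nat.prod_factorization_pow_eq_self hm.ne']
    rw [Finsupp.prod, Nat.support_factorization]
    push_cast
    rfl
  calc (σ 1 m : ℚ) * (1 - W / B) ≤ (σ 1 m : ℚ) * (1 - 1 / B) ^ m.primeFactors.card := by gcongr
    _ = ∏ p ∈ m.primeFactors, ((sg m p : ℚ) * (1 - 1 / B)) := by
        rw [prod_mul_distrib, prod_const, sigma_eq hm.ne']
        push_cast
        rfl
    _ ≤ ∏ p ∈ m.primeFactors, (p : ℚ) ^ m.factorization p := by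
        apply prod_le_prod
        · intro p _
          positivity
        · intro p hp
          have hp2 : (2 : ℚ) ≤ p := by exact_mod_cast (Nat.prime_of_mem_primeFactors hp).two_le
          have hpB : (B : ℚ) ≤ p := by exact_mod_cast h p hp
          have g1 := geom_sum_mul (p : ℚ) (m.factorization p + 1)
          have g2 : (sg m p : ℚ) = ∑ i ∈ range (m.factorization p + 1), (p : ℚ) ^ i := by
            unfold sg
            push_cast
            rfl
          have g3 : (sg m p : ℚ) * (1 - 1 / p) ≤ (p : ℚ) ^ m.factorization p := by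
            have : (1 : ℚ) - 1 / p = (p - 1) / p := by field_simp
            rw [this, ← mul_div_assoc, g2, g1, div_le_iff₀ (by linarith), pow_succ]
            linarith
          refine le_trans ?_ g3
          gcongr
    _ = m := h4.symm

lemma fin_omega (K W : ℕ) : ∀ α : ℚ, {m : ℕ | 0 < m ∧ m.primeFactors.card ≤ W ∧
    (∀ p, m.factorization p ≤ K) ∧ (σ 1 m : ℚ) = α * m}.Finite := by
  induction W with
  | zero =>
    intro α
    refine (Set.finite_singleton 1).subset ?_
    rintro m ⟨h1, h2, -, -⟩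
    have := Nat.primeFactors_eq_empty.mp (card_eq_zero.mp (Nat.le_zero.mp h2))
    simp only [Set.mem_singleton_iff]
    omega
  | succ W ih =>
    intro α
    by_cases hα : α ≤ 1
    · refine (Set.finite_singleton 1).subset ?_
      rintro m ⟨h1, -, -, h4⟩
      simp only [Set.mem_singleton_iff]
      by_contra hne
      have h5 : m + 1 ≤ σ 1 m := by
        rw [ArithmeticFunction.sigma_one_apply]
        calc m + 1 = ∑ d ∈ ({m, 1} : Finset ℕ), d := by rw [sum_pair hne]
          _ ≤ _ := sum_le_sum_of_subset (by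
              intro d hd
              rcases mem_insert.mp hd with rfl | hd
              · exact Nat.mem_divisors_self _ h1.ne'
              · rw [mem_singleton.mp hd]
                exact Nat.one_mem_divisors.mpr h1.ne')
      have h6 : (m : ℚ) + 1 ≤ σ 1 m := by exact_mod_cast h5
      have h7 : (0 : ℚ) < m := by exact_mod_cast h1
      nlinarith
    push Not at hα
    obtain ⟨B, hB⟩ := exists_nat_gt (α * (W + 1) / (α - 1))
    have hB0 : (0 : ℚ) < B := lt_of_le_of_lt (div_nonneg (by positivity) (by linarith)) hB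
    have hfin : (⋃ q ∈ (range B : Set ℕ), ⋃ e ∈ (range (K + 1) : Set ℕ),
        (fun x => q ^ e * x) '' {m : ℕ | 0 < m ∧ m.primeFactors.card ≤ W ∧
          (∀ p, m.factorization p ≤ K) ∧
          (σ 1 m : ℚ) = (α * q ^ e / σ 1 (q ^ e)) * m}).Finite :=
      (finite_toSet _).biUnion (fun q _ => (finite_toSet _).biUnion
        (fun e _ => (ih _).image _))
    refine hfin.subset ?_
    rintro m ⟨h1, h2, h3, h4⟩
    have hq : ∃ q ∈ m.primeFactors, q < B := by
      by_contra hc
      push Not at hc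
      have h5 := small_prime h1 h2 (by exact_mod_cast hB0) hc
      have h7 : (0 : ℚ) < m := by exact_mod_cast h1
      rw [h4] at h5
      rw [div_lt_iff₀ (by linarith)] at hB
      have h8 : α * (1 - ((W + 1 : ℕ) : ℚ) / B) ≤ 1 := by nlinarith
      push_cast at h8
      have h9 : α * (1 - ((W : ℚ) + 1) / B) * B = α * B - α * (W + 1) := by field_simp
      nlinarith
    obtain ⟨q, hq1, hq2⟩ := hq
    have hqp := Nat.prime_of_mem_primeFactors hq1
    simp only [Set.mem_iUnion]
    refine ⟨q, by simpa using hq2, m.factorization q, by simpa using Nat.lt_succ_of_le (h3 q),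
      ordCompl[q] m, ⟨Nat.ordCompl_pos q h1.ne', ?_, ?_, ?_⟩, Nat.ordProj_mul_ordCompl_eq_self m q⟩
    · have : (ordCompl[q] m).primeFactors = m.primeFactors.erase q := by
        rw [← Nat.support_factorization, Nat.factorization_ordCompl, Finsupp.support_erase,
          Nat.support_factorization]
      rw [this, card_erase_of_mem hq1]
      omega
    · intro p
      rw [Nat.factorization_ordCompl]
      by_cases hp : p = q
      · simp [hp]
      · rw [Finsupp.erase_ne hp]
        exact h3 p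
    · have h5 : σ 1 m = σ 1 (q ^ m.factorization q) * σ 1 (ordCompl[q] m) := by
        conv_lhs => rw [← Nat.ordProj_mul_ordCompl_eq_self m q]
        exact ArithmeticFunction.isMultiplicative_sigma.map_mul_of_coprime
          (Nat.Coprime.pow_left _ (Nat.coprime_ordCompl hqp h1.ne'))
      have h6 : (m : ℚ) = (q : ℚ) ^ m.factorization q * (ordCompl[q] m : ℕ) := by
        exact_mod_cast (Nat.ordProj_mul_ordCompl_eq_self m q).symm
      have h7 : (0 : ℚ) < σ 1 (q ^ m.factorization q) := by
        exact_mod_cast ArithmeticFunction.sigma_pos 1 _ (pow_ne_zero _ hqp.ne_zero)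
      rw [h5] at h4
      push_cast at h4
      rw [div_mul_eq_mul_div, eq_div_iff h7.ne']
      rw [h6] at h4
      linarith

end Pool.Agent.Lib.MP_c05f82_nt
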