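import Pool.Agent.Lib.MP_c05f82_nt.PSExc

set_option autoImplicit false

open ArithmeticFunction.sigma

namespace Pool.Agent.Lib.MP_c05f82_nt.PS

variable {k : ℕ}

noncomputable def wt (δ : ℝ) (n : Fin k → ℕ) : ℝ := ∏ i, (n i : ℝ) ^ (-δ)

def ch (z u : ℕ) (α : Fin k → ℕ) : Finset ℕ :=
  (Finset.univ.biUnion (fun i => (σ 1 (u ^ α i)).primeFactors)).filter (fun p => z < p)

lemma wt_nonneg (δ : ℝ) (n : Fin k → ℕ) : 0 ≤ wt δ n :=
  Finset.prod_nonneg (fun _ _ => Real.rpow_nonneg (Nat.cast_nonneg _) _)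

lemma ch_bound (z u : ℕ) (hu : u.Prime) (δ : ℝ) (hδ : 0 < δ) (hz : 2 ≤ (z : ℝ) ^ (δ / 4))
    (α : Fin k → ℕ) :
    (2 : ℝ) ^ (ch z u α).card * wt δ (fun i => u ^ α i) ≤ ∏ i, ((u : ℝ) ^ (-δ / 2)) ^ α i := by
  have h1 : z ^ (ch z u α).card ≤ ∏ p ∈ ch z u α, p :=
    Finset.pow_card_le_prod _ _ _ (fun p hp => (Finset.mem_filter.1 hp).2.le)
  have h2 : ∏ p ∈ ch z u α, p ∣ ∏ i, σ 1 (u ^ α i) := by
    refine Finset.prod_primes_dvd _ (fun p hp => ?_) (fun p hp => ?_)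
    · obtain ⟨i, _, hi⟩ := Finset.mem_biUnion.1 (Finset.mem_filter.1 hp).1
      exact (Nat.prime_of_mem_primeFactors hi).prime
    · obtain ⟨i, _, hi⟩ := Finset.mem_biUnion.1 (Finset.mem_filter.1 hp).1
      exact (Nat.dvd_of_mem_primeFactors hi).trans (Finset.dvd_prod_of_mem _ (Finset.mem_univ i))
  have h3 : ∏ i, σ 1 (u ^ α i) ≤ ∏ i, u ^ (2 * α i) :=
    Finset.prod_le_prod' (fun i _ => sig_pow_le u _ hu)
  have h4 : z ^ (ch z u α).card ≤ ∏ i, u ^ (2 * α i) := h1.trans ((Nat.le_of_dvd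
    (Finset.prod_pos (fun i _ => Nat.pos_of_ne_zero (sig_ne _ (pow_ne_zero _ hu.ne_zero))))
      h2).trans h3)
  have h5 : ((z : ℝ) ^ (ch z u α).card) ≤ ∏ i, (u : ℝ) ^ (2 * α i) := by exact_mod_cast h4
  have hu0 : (0 : ℝ) < u := by exact_mod_cast hu.pos
  have h6 : (2 : ℝ) ^ (ch z u α).card ≤ ∏ i, ((u : ℝ) ^ (2 * α i)) ^ (δ / 4) := by
    rw [Real.finsetProd_rpow _ _ (fun i _ => by positivity)]
    calc (2 : ℝ) ^ (ch z u α).card ≤ ((z : ℝ) ^ (δ / 4)) ^ (ch z u α).card :=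
          pow_le_pow_left₀ (by norm_num) hz _
      _ = ((z : ℝ) ^ (ch z u α).card) ^ (δ / 4) := by
          rw [← Real.rpow_natCast, ← Real.rpow_natCast, ← Real.rpow_mul (Nat.cast_nonneg _),
            ← Real.rpow_mul (Nat.cast_nonneg _), mul_comm]
      _ ≤ _ := Real.rpow_le_rpow (by positivity) h5 (by positivity)
  calc _ ≤ (∏ i, ((u : ℝ) ^ (2 * α i)) ^ (δ / 4)) * wt δ (fun i => u ^ α i) :=
        mul_le_mul_of_nonneg_right h6 (wt_nonneg _ _)
    _ = _ := by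
        unfold wt
        rw [← Finset.prod_mul_distrib]
        refine Finset.prod_congr rfl (fun i _ => ?_)
        push_cast
        rw [← Real.rpow_natCast, ← Real.rpow_natCast, ← Real.rpow_natCast,
          ← Real.rpow_mul hu0.le, ← Real.rpow_mul hu0.le, ← Real.rpow_mul hu0.le,
          ← Real.rpow_add hu0]
        congr 1
        push_cast
        ring

lemma geo (r : ℝ) (h0 : 0 ≤ r) (h1 : r < 1) (A : Finset (Fin k → ℕ)) :
    ∑ α ∈ A, ∏ i, r ^ α i ≤ (1 - r)⁻¹ ^ k := by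
  classical
  set E := A.sup (fun α => Finset.univ.sup α) + 1 with hE
  have hsub : A ⊆ Fintype.piFinset (fun _ : Fin k => Finset.range E) := by
    intro α hα
    rw [Fintype.mem_piFinset]
    intro i
    exact Finset.mem_range.2 (Nat.lt_succ_of_le ((Finset.le_sup (f := α) (Finset.mem_univ i)).trans
      (Finset.le_sup (f := fun α : Fin k → ℕ => Finset.univ.sup α) hα)))
  calc _ ≤ ∑ α ∈ Fintype.piFinset (fun _ : Fin k => Finset.range E), ∏ i, r ^ α i :=
        Finset.sum_le_sum_of_subset_of_nonneg hsub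
          (fun α _ _ => Finset.prod_nonneg (fun i _ => pow_nonneg h0 _))
    _ = ∏ _i : Fin k, ∑ j ∈ Finset.range E, r ^ j :=
        (Finset.prod_univ_sum (fun _ : Fin k => Finset.range E) (fun _ j => r ^ j)).symm
    _ = (∑ j ∈ Finset.range E, r ^ j) ^ k := by simp
    _ ≤ _ := by
        refine pow_le_pow_left₀ (Finset.sum_nonneg (fun j _ => pow_nonneg h0 _)) ?_ _
        rw [← tsum_geometric_of_lt_one h0 h1]
        exact (summable_geometric_of_lt_one h0 h1).sum_le_tsum _ (fun j _ => pow_nonneg h0 _)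

lemma count (z : ℕ) (δ : ℝ) (D : ℕ → ℝ) (hD1 : ∀ u, 1 ≤ D u) (hD2 : ∀ u, z < u → D u = 2)
    (hD : ∀ u, u.Prime → ∀ A : Finset (Fin k → ℕ),
      ∑ α ∈ A, (2 : ℝ) ^ (ch z u α).card * wt δ (fun i => u ^ α i) ≤ D u) :
    ∀ W T : Finset ℕ, ∀ F : Finset (Fin k → ℕ),
      (∀ n ∈ F, (∀ i, n i ≠ 0) ∧ (∀ i p, p.Prime → p ∣ n i → p ∈ W) ∧ Gen z n T) →
      ∑ n ∈ F, wt δ n ≤ ∏ u ∈ T, D u := by
  classical
  intro W
  induction W using Finset.strongInduction with
  | H W ih =>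
  intro T F hF
  have hD0 : ∀ u, 0 ≤ D u := fun u => zero_le_one.trans (hD1 u)
  by_cases hex : ∃ u ∈ T, u ∈ W ∧ u.Prime
  swap
  · have hsub : F ⊆ {fun _ => 1} := by
      intro n hn
      obtain ⟨h1, h2, h3⟩ := hF n hn
      rw [Finset.mem_singleton]
      funext i
      by_contra hc
      have hp := Nat.minFac_prime hc
      have := h3 {p | ¬ (p ∈ W ∧ p.Prime)} (by
        intro v hv hvp j p hp _ hd
        have h4 : ¬ v ∣ n j := fun h => hv ⟨h2 j v hvp h, hvp⟩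
        rw [Nat.factorization_eq_zero_of_not_dvd h4] at hd
        exact absurd (by simpa using hd) hp.one_lt.ne') (fun q hq h => hex ⟨q, hq, h⟩)
        i _ hp (Nat.minFac_dvd _)
      exact this ⟨h2 i _ hp (Nat.minFac_dvd _), hp⟩
    calc _ ≤ ∑ n ∈ ({fun _ => 1} : Finset (Fin k → ℕ)), wt δ n :=
          Finset.sum_le_sum_of_subset_of_nonneg hsub (fun n _ _ => wt_nonneg _ _)
      _ = 1 := by simp [wt]
      _ ≤ _ := Finset.one_le_prod (fun u _ => hD1 u)
  obtain ⟨u, huT, huW, hu⟩ := hex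
  set g : (Fin k → ℕ) → (Fin k → ℕ) := fun n i => (n i).factorization u with hg
  set c : (Fin k → ℕ) → (Fin k → ℕ) := fun n i => ordCompl[u] (n i) with hc
  have hsplit : ∀ n i, n i = u ^ g n i * c n i :=
    fun n i => (Nat.ordProj_mul_ordCompl_eq_self (n i) u).symm
  rw [← Finset.sum_fiberwise_of_maps_to (g := g) (t := F.image g)
    (fun n hn => Finset.mem_image_of_mem g hn), ← Finset.mul_prod_erase _ _ huT]
  refine le_trans ?_ (mul_le_mul_of_nonneg_right (hD u hu (F.image g))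
    (Finset.prod_nonneg (fun v _ => hD0 v)))
  rw [Finset.sum_mul]
  refine Finset.sum_le_sum (fun α _ => ?_)
  have h1 : ∑ n ∈ F.filter (fun n => g n = α), wt δ n =
      wt δ (fun i => u ^ α i) * ∑ n ∈ (F.filter (fun n => g n = α)).image c, wt δ n := by
    rw [Finset.sum_image, Finset.mul_sum]
    · refine Finset.sum_congr rfl (fun n hn => ?_)
      have hα := (Finset.mem_filter.1 hn).2
      unfold wt
      rw [← Finset.prod_mul_distrib]
      refine Finset.prod_congr rfl (fun i _ => ?_)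
      rw [← Real.mul_rpow (Nat.cast_nonneg _) (Nat.cast_nonneg _), ← Nat.cast_mul, ← hα,
        ← hsplit n i]
    · intro n hn m hm h
      have h2 := (Finset.mem_filter.1 (Finset.mem_coe.1 hn)).2
      have h3 := (Finset.mem_filter.1 (Finset.mem_coe.1 hm)).2
      funext i
      rw [hsplit n i, hsplit m i, h2, h3, h]
  have h2 := ih (W.erase u) (Finset.erase_ssubset huW) (T.erase u ∪ ch z u α)
    ((F.filter (fun n => g n = α)).image c) (by
      intro n' hn'
      obtain ⟨n, hn, rfl⟩ := Finset.mem_image.1 hn'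
      obtain ⟨hnF, hα⟩ := Finset.mem_filter.1 hn
      obtain ⟨h1, h2, h3⟩ := hF n hnF
      have hnu : ∀ i p, p ∣ c n i → p ≠ u := by
        intro i p hd hpu
        rw [hpu] at hd
        exact Nat.not_dvd_ordCompl hu (h1 i) hd
      have hdv : ∀ i, c n i ∣ n i := fun i => Nat.ordCompl_dvd _ _
      refine ⟨fun i => (Nat.ordCompl_pos u (h1 i)).ne', fun i p hp hd =>
        Finset.mem_erase.2 ⟨hnu i p hd, h2 i p hp (hd.trans (hdv i))⟩, ?_⟩
      intro Y hY hTY i p hp hd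
      have := h3 (insert u Y) (by
        intro v hv hvp j r hr hz hdr
        refine Set.mem_insert_of_mem _ ?_
        by_cases hvu : v = u
        · subst hvu
          refine hTY r (Finset.mem_union_right _ (Finset.mem_filter.2 ⟨Finset.mem_biUnion.2
            ⟨j, Finset.mem_univ _, Nat.mem_primeFactors.2 ⟨hr, ?_,
              sig_ne _ (pow_ne_zero _ hu.ne_zero)⟩⟩, hz⟩))
          rw [← hα]; exact hdr
        · refine hY v ((Set.mem_insert_iff.1 hv).resolve_left hvu) hvp j r hr hz ?_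
          have : (c n j).factorization v = (n j).factorization v := by
            simp only [hc]
            rw [Nat.factorization_ordCompl, Finsupp.erase_ne hvu]
          rw [this]; exact hdr)
        (fun q hq => by
          by_cases hqu : q = u
          · exact hqu ▸ Set.mem_insert _ _
          · exact Set.mem_insert_of_mem _ (hTY q (Finset.mem_union_left _
              (Finset.mem_erase.2 ⟨hqu, hq⟩)))) i p hp (hd.trans (hdv i))
      exact (Set.mem_insert_iff.1 this).resolve_left (hnu i p hd))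
  have h3 : ∏ v ∈ T.erase u ∪ ch z u α, D v ≤
      (2 : ℝ) ^ (ch z u α).card * ∏ v ∈ T.erase u, D v := by
    have e1 : (2 : ℝ) ^ (ch z u α).card = ∏ v ∈ ch z u α, D v := by
      rw [← Finset.prod_const]
      exact Finset.prod_congr rfl (fun v hv => (hD2 v (Finset.mem_filter.1 hv).2).symm)
    rw [e1, mul_comm, ← Finset.prod_union_inter]
    exact le_mul_of_one_le_right (Finset.prod_nonneg (fun v _ => hD0 v))
      (Finset.one_le_prod (fun v _ => hD1 v))
  rw [h1]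
  calc _ ≤ wt δ (fun i => u ^ α i) * ((2 : ℝ) ^ (ch z u α).card * ∏ v ∈ T.erase u, D v) :=
        mul_le_mul_of_nonneg_left (h2.trans h3) (wt_nonneg _ _)
    _ = _ := by ring

lemma exists_D (k : ℕ) (δ : ℝ) (hδ : 0 < δ) : ∃ z : ℕ, 2 * (k + 5) ≤ z ∧ ∃ D : ℕ → ℝ,
    (∀ u, 1 ≤ D u) ∧ (∀ u, z < u → D u = 2) ∧ ∀ u, u.Prime → ∀ A : Finset (Fin k → ℕ),
      ∑ α ∈ A, (2 : ℝ) ^ (ch z u α).card * wt δ (fun i => u ^ α i) ≤ D u := by
  have t1 : Filter.Tendsto (fun z : ℕ => (z : ℝ) ^ (δ / 4)) Filter.atTop Filter.atTop :=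
    (tendsto_rpow_atTop (by positivity)).comp tendsto_natCast_atTop_atTop
  have t2 : Filter.Tendsto (fun z : ℕ => (z : ℝ) ^ (-(δ / 2))) Filter.atTop (nhds 0) :=
    (tendsto_rpow_neg_atTop (by positivity)).comp tendsto_natCast_atTop_atTop
  obtain ⟨z, hz1, hz2, hz3⟩ := ((t1.eventually_ge_atTop 2).and
    ((t2.eventually_lt_const (show (0 : ℝ) < 1 / (2 * k + 2) by positivity)).and
      (Filter.eventually_ge_atTop (2 * (k + 5))))).exists
  have hr2 : (2 : ℝ) ^ (-δ / 2) < 1 :=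
    Real.rpow_lt_one_of_one_lt_of_neg (by norm_num) (by linarith)
  have hr20 : (0 : ℝ) ≤ (2 : ℝ) ^ (-δ / 2) := by positivity
  refine ⟨z, hz3, fun u => if u ≤ z then (1 - (2 : ℝ) ^ (-δ / 2))⁻¹ ^ k else 2, fun u => ?_,
    fun u hu => by simp [not_le.2 hu], fun u hu A => ?_⟩
  · beta_reduce
    split_ifs
    · exact one_le_pow₀ ((one_le_inv₀ (by linarith)).2 (by linarith))
    · norm_num
  have hu2 : (2 : ℝ) ≤ u := by exact_mod_cast hu.two_le
  have hr : (u : ℝ) ^ (-δ / 2) ≤ (2 : ℝ) ^ (-δ / 2) :=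
    Real.rpow_le_rpow_of_nonpos (by norm_num) hu2 (by linarith)
  have hr0 : (0 : ℝ) ≤ (u : ℝ) ^ (-δ / 2) := by positivity
  refine (Finset.sum_le_sum (fun α _ => ch_bound z u hu δ hδ hz1 α)).trans
    ((geo _ hr0 (by linarith) A).trans ?_)
  beta_reduce
  split_ifs with h
  · exact pow_le_pow_left₀ (inv_nonneg.2 (by linarith))
      (inv_anti₀ (by linarith) (by linarith)) _
  · have hzu : (z : ℝ) ≤ u := by exact_mod_cast (not_le.1 h).le
    have hz0 : (0 : ℝ) < z := by exact_mod_cast (by omega : 0 < z)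
    have h1 : (u : ℝ) ^ (-δ / 2) ≤ 1 / (2 * k + 2) := by
      rw [neg_div]
      exact (Real.rpow_le_rpow_of_nonpos hz0 hzu (by linarith)).trans hz2.le
    generalize (u : ℝ) ^ (-δ / 2) = r at hr hr0 h1
    have hk0 : (0 : ℝ) ≤ k := Nat.cast_nonneg _
    have h2 : r * (2 * k + 2) ≤ 1 := by rwa [le_div_iff₀ (by positivity)] at h1
    have h3 := one_add_mul_le_pow (show (-2 : ℝ) ≤ -r by nlinarith) k
    rw [inv_pow]
    have h4 : (1 / 2 : ℝ) ≤ (1 - r) ^ k := by
      rw [sub_eq_add_neg]; nlinarith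
    calc _ ≤ (1 / 2 : ℝ)⁻¹ := inv_anti₀ (by norm_num) h4
      _ = 2 := by norm_num

theorem tuples (hk : 2 ≤ k) (ε : ℝ) (hε : 0 < ε) : ∃ C : ℝ, ∀ x : ℕ, 1 ≤ x →
    ∀ F : Finset (Fin k → ℕ), (∀ n ∈ F, PF n ∧ ∀ i, n i ≤ x) →
      (F.card : ℝ) ≤ C * (x : ℝ) ^ ((k : ℝ) / (k + 5) + ε) := by
  classical
  have hk0 : (0 : ℝ) < k := by exact_mod_cast (by omega : 0 < k)
  set δ : ℝ := ε / (2 * k) with hδd
  have hδ : 0 < δ := by positivity
  obtain ⟨z, hz, D, hD1, hD2, hD⟩ := exists_D k δ hδ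
  have hD0 : ∀ u, 0 ≤ D u := fun u => zero_le_one.trans (hD1 u)
  set s : ℝ := (1 + δ) / (k + 5) with hs
  have hs0 : 0 < s := by positivity
  set ρ : ℕ → ℝ := fun q => (2 : ℝ) ^ s * (nu q : ℝ) ^ (-((1 + δ) / 7)) with hρ
  have hρ0 : ∀ q, 0 ≤ ρ q := fun q => by positivity
  have hsum : Summable (fun q => 2 * ρ q) :=
    ((summable_nu' δ hδ).mul_left ((2 : ℝ) ^ s)).mul_left 2
  refine ⟨(∏ u ∈ Finset.range (z + 1), D u) * Real.exp (∑' q, 2 * ρ q), fun x hx F hF => ?_⟩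
  choose! R hR1 hR2 hR3 using fun n : Fin k → ℕ => fun hn : PF n => roots hk hn z hz
  have hx0 : (0 : ℝ) < x := by exact_mod_cast hx
  have hx1 : (1 : ℝ) ≤ x := by exact_mod_cast hx
  have hmap : ∀ n ∈ F, R n ∈ (Finset.Ioc z x).powerset := by
    intro n hn
    refine Finset.mem_powerset.2 (fun q hq => ?_)
    obtain ⟨h1, i, h2⟩ := hR1 n (hF n hn).1 q hq
    exact Finset.mem_Ioc.2 ⟨h1, (Nat.le_of_dvd (Nat.pos_of_ne_zero ((hF n hn).1.ne i)) h2).trans
      ((hF n hn).2 i)⟩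
  have h1 : ∀ n ∈ F, (1 : ℝ) ≤ (x : ℝ) ^ ((k : ℝ) / (k + 5) + ε) * (wt δ n * ∏ q ∈ R n, ρ q) := by
    intro n hn
    obtain ⟨hp, hle⟩ := hF n hn
    have a1 : (1 : ℝ) ≤ (x : ℝ) ^ (k * δ) * wt δ n := by
      have : (x : ℝ) ^ (k * δ) = ∏ _i : Fin k, (x : ℝ) ^ δ := by
        rw [Finset.prod_const, Finset.card_univ, Fintype.card_fin, ← Real.rpow_natCast,
          ← Real.rpow_mul hx0.le, mul_comm]
      rw [this]
      unfold wt
      rw [← Finset.prod_mul_distrib]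
      refine Finset.one_le_prod (fun i _ => ?_)
      have b0 : (0 : ℝ) < n i := by exact_mod_cast Nat.pos_of_ne_zero (hp.ne i)
      have b1 : (n i : ℝ) ≤ x := by exact_mod_cast hle i
      rw [Real.rpow_neg b0.le, ← div_eq_mul_inv, one_le_div (Real.rpow_pos_of_pos b0 _)]
      exact Real.rpow_le_rpow b0.le b1 hδ.le
    have a2 : (1 : ℝ) ≤ (x : ℝ) ^ (k * s) * ∏ q ∈ R n, ρ q := by
      have b1 : ∏ i, n i ≤ x ^ k := by
        have := Finset.prod_le_pow_card Finset.univ n x (fun i _ => hle i)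
        simpa using this
      have b2 : ∏ q ∈ R n, nu q ^ (k + 5) ≤ (2 ^ (R n).card * x ^ k) ^ 7 :=
        (hR2 n hp).trans (Nat.pow_le_pow_left (Nat.mul_le_mul_left _ b1) _)
      have b3 : ∏ q ∈ R n, (nu q : ℝ) ^ (k + 5) ≤ (2 ^ (R n).card * (x : ℝ) ^ k) ^ 7 := by
        exact_mod_cast b2
      have b4 := Real.rpow_le_rpow (Finset.prod_nonneg (fun q _ => by positivity)) b3
        (show 0 ≤ s / 7 by positivity)
      rw [← Real.finsetProd_rpow _ _ (fun q _ => by positivity), ← Real.rpow_natCast _ 7,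
        ← Real.rpow_mul (by positivity), show ((7 : ℕ) : ℝ) * (s / 7) = s by push_cast; ring,
        Real.mul_rpow (by positivity) (by positivity)] at b4
      have b5 : ∏ q ∈ R n, ((nu q : ℝ) ^ (k + 5)) ^ (s / 7) =
          ∏ q ∈ R n, (nu q : ℝ) ^ ((1 + δ) / 7) := by
        refine Finset.prod_congr rfl (fun q _ => ?_)
        rw [← Real.rpow_natCast, ← Real.rpow_mul (Nat.cast_nonneg _)]
        congr 1
        rw [hs]; push_cast; field_simp
      have b6 : (∏ q ∈ R n, (nu q : ℝ) ^ ((1 + δ) / 7)) * ∏ q ∈ R n, ρ q =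
          ((2 : ℝ) ^ (R n).card) ^ s := by
        rw [← Finset.prod_mul_distrib, ← Finset.prod_const,
          ← Real.finsetProd_rpow _ _ (fun q _ => by norm_num)]
        refine Finset.prod_congr rfl (fun q hq => ?_)
        have hq0 : 0 < q := by have := (hR1 n hp q hq).1; omega
        have : (0 : ℝ) < nu q := by
          unfold nu
          split_ifs <;> exact_mod_cast pow_pos hq0 _
        simp only [hρ]
        rw [Real.rpow_neg this.le]
        field_simp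
      have b7 : (0 : ℝ) < ((2 : ℝ) ^ (R n).card) ^ s := by positivity
      have b8 : ((x : ℝ) ^ k) ^ s = (x : ℝ) ^ (k * s) := by
        rw [← Real.rpow_natCast, ← Real.rpow_mul hx0.le]
      rw [b5, b8] at b4
      have b9 := mul_le_mul_of_nonneg_right b4 (Finset.prod_nonneg (fun q _ => hρ0 q) :
        0 ≤ ∏ q ∈ R n, ρ q)
      rw [b6, mul_assoc] at b9
      exact (le_mul_iff_one_le_right b7).1 b9
    have a3 : (x : ℝ) ^ (k * δ) * (x : ℝ) ^ (k * s) ≤ (x : ℝ) ^ ((k : ℝ) / (k + 5) + ε) := by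
      rw [← Real.rpow_add hx0]
      refine Real.rpow_le_rpow_of_exponent_le hx1 ?_
      have c1 : k * δ = ε / 2 := by rw [hδd]; field_simp
      have c2 : k * s = k / (k + 5) + k * δ / (k + 5) := by rw [hs]; field_simp
      have c3 : k * δ / (k + 5) ≤ k * δ := div_le_self (by positivity) (by linarith)
      linarith
    calc (1 : ℝ) ≤ ((x : ℝ) ^ (k * δ) * wt δ n) * ((x : ℝ) ^ (k * s) * ∏ q ∈ R n, ρ q) :=
          one_le_mul_of_one_le_of_one_le a1 a2
      _ = ((x : ℝ) ^ (k * δ) * (x : ℝ) ^ (k * s)) * (wt δ n * ∏ q ∈ R n, ρ q) := by ring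
      _ ≤ _ := mul_le_mul_of_nonneg_right a3
          (mul_nonneg (wt_nonneg _ _) (Finset.prod_nonneg (fun q _ => hρ0 q)))
  have h2 : ∑ n ∈ F, wt δ n * ∏ q ∈ R n, ρ q ≤
      (∏ u ∈ Finset.range (z + 1), D u) * Real.exp (∑' q, 2 * ρ q) := by
    rw [← Finset.sum_fiberwise_of_maps_to hmap]
    have a1 : ∀ T ∈ (Finset.Ioc z x).powerset, ∑ n ∈ F.filter (fun n => R n = T),
        wt δ n * ∏ q ∈ R n, ρ q ≤ (∏ u ∈ Finset.range (z + 1), D u) * ∏ q ∈ T, 2 * ρ q := by
      intro T hT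
      have hTz : ∀ q ∈ T, z < q := fun q hq => (Finset.mem_Ioc.1 (Finset.mem_powerset.1 hT hq)).1
      have b1 := count z δ D hD1 hD2 hD (Finset.range (x + 1)) (Finset.range (z + 1) ∪ T)
        (F.filter (fun n => R n = T)) (by
          intro n hn
          obtain ⟨hn1, hn2⟩ := Finset.mem_filter.1 hn
          obtain ⟨hp, hle⟩ := hF n hn1
          exact ⟨hp.ne, fun i p _ hd => Finset.mem_range.2 (Nat.lt_succ_of_le
            ((Nat.le_of_dvd (Nat.pos_of_ne_zero (hp.ne i)) hd).trans (hle i))), hn2 ▸ hR3 n hp⟩)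
      rw [Finset.prod_union (Finset.disjoint_left.2 (fun q hq hq' => by
        have := hTz q hq'; have := Finset.mem_range.1 hq; omega)),
        Finset.prod_congr rfl (fun q hq => hD2 q (hTz q hq))] at b1
      rw [Finset.sum_congr rfl (fun n hn => by rw [(Finset.mem_filter.1 hn).2]), ← Finset.sum_mul,
        Finset.prod_mul_distrib (f := fun _ => (2 : ℝ)) (g := ρ), ← mul_assoc]
      exact mul_le_mul_of_nonneg_right b1 (Finset.prod_nonneg (fun q _ => hρ0 q))
    refine (Finset.sum_le_sum a1).trans ?_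
    rw [← Finset.mul_sum, ← Finset.prod_one_add]
    refine mul_le_mul_of_nonneg_left ?_ (Finset.prod_nonneg (fun u _ => hD0 u))
    calc _ ≤ ∏ q ∈ Finset.Ioc z x, Real.exp (2 * ρ q) :=
          Finset.prod_le_prod (fun q _ => by have := hρ0 q; positivity)
            (fun q _ => by rw [add_comm]; exact Real.add_one_le_exp _)
      _ = Real.exp (∑ q ∈ Finset.Ioc z x, 2 * ρ q) := (Real.exp_sum _ _).symm
      _ ≤ _ := Real.exp_le_exp.2 (hsum.sum_le_tsum _ (fun q _ => by have := hρ0 q; positivity))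
  calc (F.card : ℝ) = ∑ n ∈ F, (1 : ℝ) := by simp
    _ ≤ ∑ n ∈ F, (x : ℝ) ^ ((k : ℝ) / (k + 5) + ε) * (wt δ n * ∏ q ∈ R n, ρ q) :=
        Finset.sum_le_sum h1
    _ = (x : ℝ) ^ ((k : ℝ) / (k + 5) + ε) * ∑ n ∈ F, wt δ n * ∏ q ∈ R n, ρ q := by
        rw [Finset.mul_sum]
    _ ≤ _ := by
        rw [mul_comm]
        exact mul_le_mul_of_nonneg_right h2 (by positivity)

end Pool.Agent.Lib.MP_c05f82_nt.PS
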