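import Pool.Agent.Lib.MP_c05f82_nt.PSRoot

set_option autoImplicit false

namespace Pool.Agent.Lib.MP_c05f82_nt.PS

lemma summable_code {ι : Type} (S : Set ℕ) (h : ℕ → ℝ) (h0 : ∀ u, 0 ≤ h u) (G : ι → ℝ)
    (hG : Summable G) (P : ℕ → ι → Prop) (hP : ∀ u ∈ S, ∃ c, P u c ∧ h u ≤ G c)
    (hinj : ∀ u v c, P u c → P v c → u = v) : Summable (S.indicator h) := by
  choose code h1 h2 using hP
  rw [← summable_subtype_iff_indicator]
  have hi : Function.Injective (fun u : S => code u.1 u.2) := by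
    intro u v huv
    exact Subtype.ext (hinj _ _ _ (h1 u.1 u.2) (by
      have := h1 v.1 v.2
      simp only at huv
      rwa [← huv] at this))
  exact Summable.of_nonneg_of_le (fun u => h0 _) (fun u => h2 u.1 u.2) (hG.comp_injective hi)

/-- the Markov-type chain -/
def mk : ℕ → ℤ × ℤ
  | 0 => (1, 1)
  | n + 1 => ((mk n).2, 5 * (mk n).2 - (mk n).1 - 1)

lemma mk_grow (n : ℕ) : (mk n).1 ≤ (mk n).2 ∧ 2 ^ n ≤ (mk n).2 := by
  induction n with
  | zero => simp [mk]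
  | succ n ih =>
    obtain ⟨h1, h2⟩ := ih
    have h3 : (1 : ℤ) ≤ 2 ^ n := one_le_pow₀ (by norm_num)
    simp only [mk, pow_succ]
    constructor <;> linarith

lemma mk_chain : ∀ u t : ℕ, 1 ≤ t → t ≤ u → t ∣ u ^ 2 + u + 1 → u ∣ t ^ 2 + t + 1 →
    t ^ 2 + u ^ 2 + t + u + 1 = 5 * t * u ∧ ∃ n, mk n = ((t : ℤ), (u : ℤ)) := by
  intro u
  induction u using Nat.strong_induction_on with
  | _ u ih =>
  intro t h1 h2 h3 h4
  rcases eq_or_lt_of_le h2 with rfl | h5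
  · have : t ∣ 1 := (Nat.dvd_add_right ⟨t + 1, by ring⟩).1 h3
    rw [Nat.dvd_one.1 this]
    exact ⟨by norm_num, 0, by simp [mk]⟩
  obtain ⟨s, hs⟩ := h4
  have hs1 : 1 ≤ s := by
    rcases s with _ | s
    · simp at hs
    · omega
  have hs2 : s ≤ t := by
    by_contra hc
    nlinarith [Nat.mul_le_mul (show t + 1 ≤ u from h5) (show t + 1 ≤ s by omega)]
  have hd : t ∣ s ^ 2 + s + 1 := by
    have e : (u ^ 2 + u + 1) * s ^ 2 = t * ((t + 1) * (t ^ 2 + t + 2) + (t + 1) * s) +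
        (s ^ 2 + s + 1) := by
      have : (u ^ 2 + u + 1) * s ^ 2 = (u * s) ^ 2 + (u * s) * s + s ^ 2 := by ring
      rw [this, ← hs]; ring
    exact (Nat.dvd_add_right (Dvd.intro _ rfl)).1 (e ▸ h3.mul_right _)
  obtain ⟨e1, n, e2⟩ := ih t h5 s hs1 hs2 (Dvd.intro_left _ hs.symm) hd
  have e3 : s + 1 + u = 5 * t :=
    Nat.eq_of_mul_eq_mul_left (show 0 < s by omega) (by nlinarith)
  refine ⟨by nlinarith, n + 1, ?_⟩
  simp only [mk, e2]
  congr 1
  have : (s : ℤ) + 1 + u = 5 * t := by exact_mod_cast e3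
  linarith

lemma gap (c u v w w' : ℕ) (hc : 3 ≤ c) (hu : 0 < u) (huv : u < v)
    (h1 : w ^ 2 + w + 1 = u ^ 2 * c) (h2 : w' ^ 2 + w' + 1 = v ^ 2 * c) : 2 * u ≤ v := by
  zify at h1 h2 ⊢
  have hc' : (3 : ℤ) ≤ c := by exact_mod_cast hc
  have hu' : (1 : ℤ) ≤ u := by exact_mod_cast hu
  have huv' : (u : ℤ) < v := by exact_mod_cast huv
  set A : ℤ := 2 * w + 1 with hA
  set B : ℤ := 2 * w' + 1 with hB
  have hA0 : 0 < A := by positivity
  have hB0 : 0 < B := by positivity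
  have eA : A ^ 2 + 3 = 4 * (u ^ 2 * c) := by rw [hA]; linear_combination 4 * h1
  have eB : B ^ 2 + 3 = 4 * (v ^ 2 * c) := by rw [hB]; linear_combination 4 * h2
  have hA3 : 3 * u ≤ A := by
    by_contra hh
    have : A ^ 2 < (3 * u) ^ 2 := pow_lt_pow_left₀ (not_le.1 hh) hA0.le (by norm_num)
    nlinarith [mul_le_mul_of_nonneg_left hc' (sq_nonneg (u : ℤ))]
  have key : (B * u - A * v) * (B * u + A * v) = 3 * (v ^ 2 - u ^ 2) := by
    linear_combination (u : ℤ) ^ 2 * eB - (v : ℤ) ^ 2 * eA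
  have hS : 0 < B * u + A * v := by positivity
  have hD : 1 ≤ B * u - A * v := by
    by_contra hh
    have : (B * u - A * v) * (B * u + A * v) ≤ 0 :=
      mul_nonpos_of_nonpos_of_nonneg (by omega) hS.le
    nlinarith
  have h3 : B * u + A * v ≤ 3 * (v ^ 2 - u ^ 2) := by nlinarith
  have h4 : 3 * u * v ≤ A * v := mul_le_mul_of_nonneg_right hA3 (by omega)
  have h5 : (2 * (u : ℤ)) * v ≤ v * v := by nlinarith [mul_pos hB0 (show (0 : ℤ) < u by omega)]
  exact le_of_mul_le_mul_right h5 (by omega)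

lemma three_le (c u w : ℕ) (h1 : w ^ 2 + w + 1 = u ^ 2 * c) (hu : 2 ≤ u) : 3 ≤ c := by
  by_contra hc
  have ho : Odd (w ^ 2 + w + 1) := by
    have := Nat.even_mul_succ_self w
    have e : w ^ 2 + w = w * (w + 1) := by ring
    rw [e]; exact this.add_one
  rcases (by omega : c = 0 ∨ c = 1 ∨ c = 2) with rfl | rfl | rfl
  · simp at h1
  · rcases le_or_gt u w with h | h
    · nlinarith [Nat.pow_le_pow_left h 2]
    · nlinarith [Nat.pow_le_pow_left (show w + 1 ≤ u from h) 2]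
  · obtain ⟨k, hk⟩ := ho
    omega

theorem summable_exc :
    Summable ({u | 2 ≤ u ∧ Exc u}.indicator (fun u : ℕ => (u : ℝ) ^ (-(5 / 7) : ℝ))) := by
  have h0 : ∀ u : ℕ, 0 ≤ (u : ℝ) ^ (-(5 / 7) : ℝ) := fun u => by positivity
  have hr : ∀ e : ℝ, e < 0 → Summable (fun n : ℕ => ((2 : ℝ) ^ e) ^ n) := fun e he =>
    summable_geometric_of_lt_one (by positivity) (Real.rpow_lt_one_of_one_lt_of_neg (by norm_num) he)
  have hp : ∀ (e : ℝ) (n u : ℕ), e < 0 → 2 ^ n ≤ u → (u : ℝ) ^ e ≤ ((2 : ℝ) ^ e) ^ n := by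
    intro e n u he h
    have : (2 : ℝ) ^ n ≤ u := by exact_mod_cast h
    rw [← Real.rpow_natCast, ← Real.rpow_mul (by norm_num), mul_comm, Real.rpow_mul (by norm_num),
      Real.rpow_natCast]
    exact Real.rpow_le_rpow_of_nonpos (by positivity) this he.le
  have s1 := summable_code {u | 2 ≤ u ∧ ∃ w, u < w ∧ w ∣ u ^ 2 + u + 1 ∧ u ∣ w ^ 2 + w + 1} _ h0 _
    (hr (-(5 / 7)) (by norm_num)) (fun u n => (mk n).2 = u) (by
      rintro u ⟨hu, w, h1, h2, h3⟩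
      obtain ⟨-, n, hn⟩ := mk_chain w u (by omega) h1.le h3 h2
      rcases n with _ | n
      · simp only [mk, Prod.mk.injEq] at hn
        omega
      · simp only [mk, Prod.mk.injEq] at hn
        refine ⟨n, hn.1, hp _ n u (by norm_num) ?_⟩
        have := (mk_grow n).2
        rw [hn.1] at this
        exact_mod_cast this)
    (fun u v c h1 h2 => by omega)
  have hG : Summable (fun x : ℕ × ℕ => ((2 : ℝ) ^ (-(1 / 7) : ℝ)) ^ x.1 *
      ((9 : ℝ) * (x.2 : ℝ) ^ (-(8 / 7) : ℝ))) :=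
    (hr (-(1 / 7)) (by norm_num)).mul_of_nonneg
      ((Real.summable_nat_rpow.2 (by norm_num)).mul_left 9) (fun n => by positivity)
      (fun n => by positivity)
  have s2 := summable_code {u | 2 ≤ u ∧ ∃ w, u ^ 2 ∣ w ^ 2 + w + 1 ∧ w ^ 4 < u ^ 5} _ h0 _ hG
    (fun u x => 2 ≤ u ∧ Nat.log 2 u = x.1 ∧ ∃ w, w ^ 2 + w + 1 = u ^ 2 * x.2) (by
      rintro u ⟨hu, w, ⟨c, hc⟩, h2⟩
      refine ⟨(Nat.log 2 u, c), ⟨hu, rfl, w, hc⟩, ?_⟩
      have hc3 := three_le c u w hc hu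
      have hu0 : (0 : ℝ) < u := by exact_mod_cast (by omega : 0 < u)
      have hc0 : (0 : ℝ) < c := by exact_mod_cast (by omega : 0 < c)
      have hw : 1 ≤ w := by
        rcases w with _ | w
        · nlinarith
        · omega
      have a1 : u ^ 2 * c ≤ 3 * w ^ 2 := by nlinarith
      have a2 : c ^ 2 ≤ 9 * u := by
        have b1 := Nat.pow_le_pow_left a1 2
        have b2 : u ^ 4 * c ^ 2 ≤ u ^ 4 * (9 * u) := by nlinarith
        exact Nat.le_of_mul_le_mul_left b2 (by positivity)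
      have a3 : (c : ℝ) ^ 2 / 9 ≤ u := by
        have : (c : ℝ) ^ 2 ≤ 9 * u := by exact_mod_cast a2
        linarith
      have a4 : (u : ℝ) ^ (-(4 / 7) : ℝ) ≤ 9 * (c : ℝ) ^ (-(8 / 7) : ℝ) := by
        refine (Real.rpow_le_rpow_of_nonpos (by positivity) a3 (by norm_num)).trans ?_
        rw [Real.div_rpow (by positivity) (by norm_num), ← Real.rpow_natCast,
          ← Real.rpow_mul hc0.le, Real.rpow_neg (by norm_num : (0 : ℝ) ≤ 9), div_inv_eq_mul,
          mul_comm]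
        have : (9 : ℝ) ^ (4 / 7 : ℝ) ≤ 9 := by
          conv_rhs => rw [← Real.rpow_one 9]
          exact Real.rpow_le_rpow_of_exponent_le (by norm_num) (by norm_num)
        norm_num
        exact mul_le_mul_of_nonneg_right this (by positivity)
      have a5 := hp (-(1 / 7)) (Nat.log 2 u) u (by norm_num) (Nat.pow_log_le_self 2 (by omega))
      have e : (u : ℝ) ^ (-(5 / 7) : ℝ) = (u : ℝ) ^ (-(1 / 7) : ℝ) * (u : ℝ) ^ (-(4 / 7) : ℝ) := by
        rw [← Real.rpow_add hu0]; norm_num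
      rw [e]
      exact mul_le_mul a5 a4 (by positivity) (by positivity))
    (by
      have aux : ∀ u v (x : ℕ × ℕ), (2 ≤ u ∧ Nat.log 2 u = x.1 ∧ ∃ w, w ^ 2 + w + 1 = u ^ 2 * x.2) →
          (2 ≤ v ∧ Nat.log 2 v = x.1 ∧ ∃ w, w ^ 2 + w + 1 = v ^ 2 * x.2) → ¬ u < v := by
        rintro u v x ⟨hu, h1, w, h2⟩ ⟨hv, h3, w', h4⟩ huv
        have a1 := gap x.2 u v w w' (three_le _ u w h2 hu) (by omega) huv h2 h4
        have a2 := Nat.pow_log_le_self 2 (show u ≠ 0 by omega)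
        have a3 := Nat.lt_pow_succ_log_self (show 1 < 2 by norm_num) v
        rw [h3, ← h1, pow_succ] at a3
        omega
      intro u v x h1 h2
      have := aux u v x h1 h2
      have := aux v u x h2 h1
      omega)
  refine Summable.of_nonneg_of_le (fun u => Set.indicator_nonneg (fun u _ => h0 u) u)
    (fun u => ?_) (s1.add s2)
  have n1 := Set.indicator_nonneg (s := {u | 2 ≤ u ∧ ∃ w, u < w ∧ w ∣ u ^ 2 + u + 1 ∧
    u ∣ w ^ 2 + w + 1}) (fun u _ => h0 u) u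
  have n2 := Set.indicator_nonneg (s := {u | 2 ≤ u ∧ ∃ w, u ^ 2 ∣ w ^ 2 + w + 1 ∧ w ^ 4 < u ^ 5})
    (fun u _ => h0 u) u
  by_cases hu : u ∈ {u | 2 ≤ u ∧ Exc u}
  · rw [Set.indicator_of_mem hu]
    obtain ⟨h2, h | h⟩ := hu
    · rw [Set.indicator_of_mem (show u ∈ {u | 2 ≤ u ∧ ∃ w, u < w ∧ w ∣ u ^ 2 + u + 1 ∧
        u ∣ w ^ 2 + w + 1} from ⟨h2, h⟩)]
      linarith
    · rw [Set.indicator_of_mem (show u ∈ {u | 2 ≤ u ∧ ∃ w, u ^ 2 ∣ w ^ 2 + w + 1 ∧ w ^ 4 < u ^ 5}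
        from ⟨h2, h.2⟩)]
      linarith
  · rw [Set.indicator_of_notMem hu]
    linarith

theorem summable_nu (δ : ℝ) (hδ : 0 < δ) :
    Summable (fun q : ℕ => (nu (q + 2) : ℝ) ^ (-((1 + δ) / 7))) := by
  have s1 : Summable (fun q : ℕ => (q : ℝ) ^ (-(1 + δ))) := Real.summable_nat_rpow.2 (by linarith)
  refine Summable.of_nonneg_of_le (fun q => by positivity) (fun q => ?_)
    ((summable_nat_add_iff 2).2 (s1.add summable_exc))
  have h1 : (1 : ℝ) ≤ ((q + 2 : ℕ) : ℝ) := by exact_mod_cast (by omega : 1 ≤ q + 2)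
  have n1 : 0 ≤ ((q + 2 : ℕ) : ℝ) ^ (-(1 + δ)) := by positivity
  unfold nu
  split_ifs with h
  · rw [Set.indicator_of_mem (show q + 2 ∈ {u | 2 ≤ u ∧ Exc u} from ⟨by omega, h⟩), Nat.cast_pow,
      ← Real.rpow_natCast, ← Real.rpow_mul (by positivity)]
    have := Real.rpow_le_rpow_of_exponent_le h1
      (show ((5 : ℕ) : ℝ) * (-((1 + δ) / 7)) ≤ -(5 / 7) by push_cast; linarith)
    linarith
  · rw [Set.indicator_of_notMem (show q + 2 ∉ {u | 2 ≤ u ∧ Exc u} from fun h' => h h'.2),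
      Nat.cast_pow, ← Real.rpow_natCast, ← Real.rpow_mul (by positivity), add_zero]
    apply le_of_eq
    congr 1
    push_cast; ring

theorem summable_nu' (δ : ℝ) (hδ : 0 < δ) :
    Summable (fun q : ℕ => (nu q : ℝ) ^ (-((1 + δ) / 7))) :=
  (summable_nat_add_iff (f := fun q : ℕ => (nu q : ℝ) ^ (-((1 + δ) / 7))) 2).1 (summable_nu δ hδ)

end Pool.Agent.Lib.MP_c05f82_nt.PS
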