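import Mathlib

set_option autoImplicit false

open ArithmeticFunction.sigma

namespace Pool.Agent.Lib.MP_c05f82_nt.PS

lemma sig_prime_mul_le (p m : ℕ) (hp : p.Prime) (hm : m ≠ 0) :
    σ 1 (p * m) ≤ (p + 1) * σ 1 m := by
  rw [ArithmeticFunction.sigma_one_apply, ArithmeticFunction.sigma_one_apply]
  have hsub : (p * m).divisors ⊆ m.divisors ∪ m.divisors.image (fun d => p * d) := by
    intro d hd
    rw [Nat.mem_divisors] at hd
    rw [Finset.mem_union]
    by_cases h : p ∣ d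
    · right
      obtain ⟨e, rfl⟩ := h
      exact Finset.mem_image.2 ⟨e, Nat.mem_divisors.2
        ⟨Nat.dvd_of_mul_dvd_mul_left hp.pos hd.1, hm⟩, rfl⟩
    · left
      exact Nat.mem_divisors.2 ⟨(Nat.Coprime.dvd_mul_left
        ((Nat.Prime.coprime_iff_not_dvd hp).2 h).symm).1 hd.1, hm⟩
  have h1 := Finset.sum_le_sum_of_subset (f := fun d : ℕ => d) hsub
  have h2 := Finset.sum_union_inter (s₁ := m.divisors)
    (s₂ := m.divisors.image (fun d => p * d)) (f := fun d : ℕ => d)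
  have h3 : ∑ d ∈ m.divisors.image (fun d => p * d), d = p * ∑ d ∈ m.divisors, d := by
    rw [Finset.sum_image (fun a _ b _ h => Nat.eq_of_mul_eq_mul_left hp.pos h), Finset.mul_sum]
  nlinarith [Nat.zero_le (∑ d ∈ m.divisors ∩ m.divisors.image (fun d => p * d), d)]

lemma sig_aux (q m : ℕ) (hm : m ≠ 0) (h : ∀ p, p.Prime → p ∣ m → q ≤ p) :
    ∃ j, q ^ j ≤ m ∧ σ 1 m * (q - j) ≤ m * q := by
  induction m using induction_on_primes with
  | zero => exact absurd rfl hm
  | one => exact ⟨0, by simp, by simp⟩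
  | prime_mul p a hp ih =>
    have ha : a ≠ 0 := fun h0 => hm (by simp [h0])
    obtain ⟨j, h1, h2⟩ := ih ha (fun r hr hra => h r hr (Dvd.dvd.mul_left hra p))
    have hqp : q ≤ p := h p hp (Dvd.intro _ rfl)
    refine ⟨j + 1, ?_, ?_⟩
    · rw [pow_succ, mul_comm]; exact Nat.mul_le_mul hqp h1
    · have h3 := sig_prime_mul_le p a hp ha
      have h4 : (p + 1) * (q - (j + 1)) ≤ p * (q - j) := by
        rcases Nat.lt_or_ge j q with hj | hj
        · obtain ⟨t, rfl⟩ : ∃ t, q = j + 1 + t := ⟨q - (j + 1), by omega⟩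
          have e1 : j + 1 + t - (j + 1) = t := by omega
          have e2 : j + 1 + t - j = t + 1 := by omega
          rw [e1, e2]; nlinarith
        · have e1 : q - (j + 1) = 0 := by omega
          rw [e1]; simp
      calc σ 1 (p * a) * (q - (j + 1)) ≤ (p + 1) * σ 1 a * (q - (j + 1)) :=
            Nat.mul_le_mul_right _ h3
        _ = σ 1 a * ((p + 1) * (q - (j + 1))) := by ring
        _ ≤ σ 1 a * (p * (q - j)) := Nat.mul_le_mul_left _ h4
        _ = p * (σ 1 a * (q - j)) := by ring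
        _ ≤ p * (a * q) := Nat.mul_le_mul_left _ h2
        _ = p * a * q := by ring

lemma sig_lt_two (q K m : ℕ) (hm : m ≠ 0) (h : ∀ p, p.Prime → p ∣ m → q ≤ p)
    (hK : 2 * K ≤ q) (hlt : m < q ^ K) : σ 1 m < 2 * m := by
  obtain ⟨j, h1, h2⟩ := sig_aux q m hm h
  have hK0 : K ≠ 0 := by rintro rfl; simp at hlt; exact hm hlt
  have hj : j < K := by
    by_contra hc
    have : q ^ K ≤ q ^ j := Nat.pow_le_pow_right (by omega) (by omega)
    omega
  obtain ⟨t, rfl⟩ : ∃ t, q = j + t := ⟨q - j, by omega⟩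
  have e1 : j + t - j = t := by omega
  rw [e1] at h2
  by_contra hc
  have h3 : 2 * m * t ≤ σ 1 m * t := Nat.mul_le_mul_right _ (by omega)
  have h4 : 0 < m := Nat.pos_of_ne_zero hm
  have h5 : j < t := by omega
  nlinarith

lemma lt_sig (m : ℕ) (hm : 1 < m) : m < σ 1 m := by
  rw [ArithmeticFunction.sigma_one_apply]
  have hsub : ({1, m} : Finset ℕ) ⊆ m.divisors := by
    intro d hd
    simp only [Finset.mem_insert, Finset.mem_singleton] at hd
    rcases hd with rfl | rfl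
    · exact Nat.one_mem_divisors.2 (by omega)
    · exact Nat.mem_divisors_self _ (by omega)
  have h1 := Finset.sum_le_sum_of_subset (f := fun d : ℕ => d) hsub
  rw [Finset.sum_pair (by omega)] at h1
  omega

lemma mp_big (q K m : ℕ) (hm : 1 < m) (h : ∀ p, p.Prime → p ∣ m → q ≤ p)
    (hK : 2 * K ≤ q) (hd : m ∣ σ 1 m) : q ^ K ≤ m := by
  by_contra hc
  have h1 := sig_lt_two q K m (by omega) h hK (by omega)
  have h2 := lt_sig m hm
  obtain ⟨c, hc⟩ := hd
  rw [hc] at h1 h2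
  have h3 : 1 < c := by nlinarith
  nlinarith

lemma sig_pow_succ (p e : ℕ) (hp : p.Prime) : σ 1 (p ^ (e + 1)) = p * σ 1 (p ^ e) + 1 := by
  rw [ArithmeticFunction.sigma_one_apply_prime_pow hp, ArithmeticFunction.sigma_one_apply_prime_pow hp,
    Finset.sum_range_succ', Finset.mul_sum]
  simp only [pow_zero, pow_succ]
  congr 1
  exact Finset.sum_congr rfl (fun i _ => by ring)

lemma not_dvd_sig_pow (p e : ℕ) (hp : p.Prime) : ¬ p ∣ σ 1 (p ^ e) := by
  rcases e with _ | e
  · simpa using hp.one_lt.ne'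
  · rw [sig_pow_succ p e hp]
    intro h
    exact hp.one_lt.ne' (Nat.dvd_one.1 ((Nat.dvd_add_right (Dvd.intro _ rfl)).1 h))

lemma sig_pow_one (p : ℕ) (hp : p.Prime) : σ 1 (p ^ 1) = p + 1 := by
  rw [sig_pow_succ p 0 hp]; simp

lemma sig_pow_two (p : ℕ) (hp : p.Prime) : σ 1 (p ^ 2) = p ^ 2 + p + 1 := by
  rw [sig_pow_succ p 1 hp, sig_pow_one p hp]; ring

lemma sig_pow_le (p e : ℕ) (hp : p.Prime) : σ 1 (p ^ e) ≤ p ^ (2 * e) := by
  induction e with
  | zero => simp
  | succ e ih =>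
    rw [sig_pow_succ p e hp]
    have h1 : 2 ≤ p := hp.two_le
    have h2 : 1 ≤ p ^ (2 * e) := Nat.one_le_pow _ _ hp.pos
    have : p ^ (2 * (e + 1)) = p * (p * p ^ (2 * e)) := by ring
    rw [this]
    nlinarith [Nat.mul_le_mul_left p ih, Nat.mul_le_mul h1 (Nat.mul_le_mul_left p h2)]

lemma sig_ne (m : ℕ) (hm : m ≠ 0) : σ 1 m ≠ 0 := (ArithmeticFunction.sigma_pos 1 m hm).ne'

lemma sig_split (p m : ℕ) (hp : p.Prime) (hm : m ≠ 0) :
    σ 1 m = σ 1 (p ^ m.factorization p) * σ 1 (ordCompl[p] m) := by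
  conv_lhs => rw [← Nat.ordProj_mul_ordCompl_eq_self m p]
  exact ArithmeticFunction.isMultiplicative_sigma.map_mul_of_coprime
    (Nat.Coprime.pow_left _ (Nat.coprime_ordCompl hp hm))

lemma sig_prod (m : ℕ) (hm : m ≠ 0) :
    σ 1 m = ∏ u ∈ m.primeFactors, σ 1 (u ^ m.factorization u) := by
  rw [ArithmeticFunction.isMultiplicative_sigma.multiplicative_factorization _ hm]
  rfl

/-- no cycle with a single quadratic edge -/
lemma no_one_quad (u r K c : ℕ) (hu : 5 ≤ u) (ho : Odd u) (hK : Even K) (hc : c < K)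
    (hr : r + c = K * u) : ¬ r ∣ u ^ 2 + u + 1 := by
  rintro ⟨t, ht⟩
  have h1 : u ^ 2 + u + 1 + t * c = t * K * u := by
    rw [ht, mul_assoc, ← hr]; ring
  have h2 : u ∣ t * c + 1 := by
    have : u ∣ u ^ 2 + u + (t * c + 1) := ⟨t * K, by rw [mul_comm u, ← h1]; ring⟩
    exact (Nat.dvd_add_right ⟨u + 1, by ring⟩).1 this
  obtain ⟨m, hm⟩ := h2
  have h3 : t * K = u + 1 + m := by
    have : u * (t * K) = u * (u + 1 + m) := by nlinarith
    exact Nat.eq_of_mul_eq_mul_left (by omega) this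
  have ht0 : 0 < t := by
    rcases t with _ | t
    · simp at ht
    · omega
  have h4 : t * c + t ≤ t * K := by nlinarith
  have hm0 : m ≠ 0 := by rintro rfl; simp at hm
  have hm1 : m = 1 := by
    by_contra hh
    have : 2 ≤ m := by omega
    nlinarith
  subst hm1
  obtain ⟨k, hk⟩ := hK
  obtain ⟨l, hl⟩ := ho
  have : t * K = 2 * (t * k) := by rw [hk]; ring
  omega

lemma no_sq_cycle (q p : ℕ) (hq : 5 ≤ q) (hqp : q + 2 ≤ p) (h1 : p ∣ q ^ 2 + q + 1) :
    ¬ q ^ 2 ∣ p ^ 2 + p + 1 := by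
  obtain ⟨t, ht⟩ := h1
  rintro ⟨v, hv⟩
  have htq : t < q := by
    by_contra hc
    nlinarith [Nat.mul_le_mul hqp (not_lt.1 hc)]
  have ht0 : 0 < t := by
    rcases t with _ | t
    · simp at ht
    · omega
  zify at ht hv
  have e1 : (t : ℤ) ^ 2 + t + 1 + q * (t + 2) =
      (q : ℤ) ^ 2 * (v * t ^ 2 - (q ^ 2 + 2 * q + 3) - t) := by
    have : ((p : ℤ) * t) ^ 2 + t * (p * t) + t ^ 2 = q ^ 2 * v * t ^ 2 := by
      rw [← hv]; ring
    rw [← ht] at this
    linear_combination this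
  generalize (v * t ^ 2 - (q ^ 2 + 2 * q + 3) - t : ℤ) = w at e1
  have hq' : (5 : ℤ) ≤ q := by exact_mod_cast hq
  have htq' : (t : ℤ) + 1 ≤ q := by exact_mod_cast htq
  have ht0' : (1 : ℤ) ≤ t := by exact_mod_cast ht0
  have hw0 : 0 < w := by
    by_contra hc
    nlinarith [mul_nonneg (sq_nonneg (q : ℤ)) (neg_nonneg.2 (not_lt.1 hc))]
  have hw2 : w ≤ 2 := by
    by_contra hc
    have : (q : ℤ) ^ 2 * 3 ≤ q ^ 2 * w := mul_le_mul_of_nonneg_left (by omega) (sq_nonneg _)
    nlinarith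
  have hw : w = 1 := by
    by_contra hc
    have hw' : w = 2 := by omega
    subst hw'
    rcases eq_or_lt_of_le htq' with h | h
    · rw [← h] at e1; nlinarith
    · nlinarith
  subst hw
  have h7 : (t : ℤ) ∣ 7 := by
    have a1 : (t : ℤ) ∣ q ^ 2 + q + 1 := ⟨p, by rw [ht]; ring⟩
    have a2 : (t : ℤ) ∣ q ^ 2 - 2 * q - 1 := ⟨t + 1 + q, by linear_combination -e1⟩
    have a3 : (7 : ℤ) = 9 * (q ^ 2 + q + 1) -
      (3 * q + 1) * ((q ^ 2 + q + 1) - (q ^ 2 - 2 * q - 1)) := by ring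
    rw [a3]
    exact dvd_sub (Dvd.dvd.mul_left a1 _) (Dvd.dvd.mul_left (dvd_sub a1 a2) _)
  have h7' : t ∣ 7 := by exact_mod_cast h7
  have := (Nat.dvd_prime (by norm_num : Nat.Prime 7)).1 h7'
  rcases this with rfl | rfl
  · push_cast at e1; nlinarith
  · push_cast at e1
    have hq13 : (q : ℤ) ≤ 13 ∨ 14 ≤ (q : ℤ) := by omega
    rcases hq13 with h | h <;> nlinarith

/-- hypotheses of a hypothetical light primitive pair -/
structure Good (q a b : ℕ) : Prop where
  hq : 14 ≤ q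
  ha : a ≠ 0
  hb : b ≠ 0
  big : ∀ p, p.Prime → p ∣ a * b → q ≤ p
  ne : ∀ p, p.Prime → p ∣ a * b → a.factorization p ≠ b.factorization p
  val : ∀ p, p.Prime → p ∣ a * b → (σ 1 a).factorization p + b.factorization p =
    (σ 1 b).factorization p + a.factorization p
  lt : 2 * (a * b) < q ^ 7

lemma Good.symm {q a b : ℕ} (h : Good q a b) : Good q b a :=
  ⟨h.hq, h.hb, h.ha, fun p hp hd => h.big p hp (mul_comm b a ▸ hd),
    fun p hp hd => (h.ne p hp (mul_comm b a ▸ hd)).symm,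
    fun p hp hd => (h.val p hp (mul_comm b a ▸ hd)).symm, mul_comm a b ▸ h.lt⟩

lemma dvd_of_fac {a p : ℕ} (h : a.factorization p ≠ 0) : p ∣ a :=
  Nat.dvd_of_factorization_pos h

lemma Good.odd {q a b : ℕ} (h : Good q a b) {p : ℕ} (hp : p.Prime) (hd : p ∣ a * b) : Odd p :=
  hp.odd_of_ne_two (by have := h.big p hp hd; have := h.hq; omega)

lemma Good.feed {q a b : ℕ} (h : Good q a b) {p : ℕ} (hp : p.Prime)
    (hlt : b.factorization p < a.factorization p) :
    p ^ (a.factorization p - b.factorization p) ∣ σ 1 (ordCompl[p] a) := by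
  have hd : p ∣ a * b := Dvd.dvd.mul_right (dvd_of_fac (by omega)) _
  have hv := h.val p hp hd
  have h1 : p ^ (a.factorization p - b.factorization p) ∣ σ 1 a :=
    (hp.pow_dvd_iff_le_factorization (sig_ne a h.ha)).2 (by omega)
  rw [sig_split p a hp h.ha] at h1
  exact (Nat.Coprime.pow_left _ ((Nat.Prime.coprime_iff_not_dvd hp).2
    (not_dvd_sig_pow p _ hp))).dvd_of_dvd_mul_left h1

lemma ge_of_ne_one (q m : ℕ) (h1 : m ≠ 1) (h0 : m ≠ 0) (h : ∀ p, p.Prime → p ∣ m → q ≤ p) :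
    q ≤ m :=
  le_trans (h _ (Nat.minFac_prime h1) (Nat.minFac_dvd m)) (Nat.minFac_le (Nat.pos_of_ne_zero h0))

lemma prime_of_lt (q m : ℕ) (h1 : m ≠ 1) (h0 : m ≠ 0) (h : ∀ p, p.Prime → p ∣ m → q ≤ p)
    (hlt : m < q * q) : m.Prime := by
  obtain ⟨b', hb'⟩ := Nat.minFac_dvd m
  have hm := Nat.minFac_prime h1
  by_cases hb2 : b' = 1
  · rw [hb', hb2, mul_one]; exact hm
  · exfalso
    have hb0 : b' ≠ 0 := by rintro rfl; exact h0 (by simpa using hb')
    have h1 := ge_of_ne_one q b' hb2 hb0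
      (fun p hp hd => h p hp ((hd.mul_left _).trans (dvd_of_eq hb'.symm)))
    have := Nat.mul_le_mul (h _ hm (Nat.minFac_dvd m)) h1
    omega

lemma two_of_lt (q m : ℕ) (h1 : m ≠ 1) (h0 : m ≠ 0) (h : ∀ p, p.Prime → p ∣ m → q ≤ p)
    (hlt : m < q * (q * q)) : m.Prime ∨ ∃ r s, r.Prime ∧ s.Prime ∧ r ≤ s ∧ m = r * s := by
  obtain ⟨b', hb'⟩ := Nat.minFac_dvd m
  have hm := Nat.minFac_prime h1
  by_cases hb2 : b' = 1
  · left; rw [hb', hb2, mul_one]; exact hm
  · right
    have hb0 : b' ≠ 0 := by rintro rfl; exact h0 (by simpa using hb')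
    have hd : b' ∣ m := Dvd.intro_left _ hb'.symm
    have hp := prime_of_lt q b' hb2 hb0 (fun p hp hd' => h p hp (hd'.trans hd)) (by
      by_contra hc
      have := Nat.mul_le_mul (h _ hm (Nat.minFac_dvd m)) (not_lt.1 hc)
      omega)
    exact ⟨_, b', hm, hp, Nat.minFac_le_of_dvd hp.two_le hd, hb'⟩

lemma dvd_sig_of_val (a : ℕ) (ha : a ≠ 0)
    (h : ∀ p, p.Prime → p ∣ a → (σ 1 a).factorization p = a.factorization p) : a ∣ σ 1 a := by
  rw [← Nat.factorization_prime_le_iff_dvd ha (sig_ne a ha)]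
  intro p hp
  by_cases hd : p ∣ a
  · exact (h p hp hd).ge
  · rw [Nat.factorization_eq_zero_of_not_dvd hd]; exact Nat.zero_le _

lemma Good.b_ne_one {q a b : ℕ} (h : Good q a b) (ha : a ≠ 1) : b ≠ 1 := by
  rintro rfl
  have hd := dvd_sig_of_val a h.ha (fun p hp hd => by
    have := h.val p hp (hd.mul_right _)
    simpa using this)
  have := h.ha
  have := mp_big q 7 a (by omega) (fun p hp hd => h.big p hp (hd.mul_right _)) h.hq hd
  have := h.lt
  omega

lemma Good.feed' {q a b : ℕ} (h : Good q a b) {p e m : ℕ} (hp : p.Prime) (ha : a = p ^ e * m)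
    (hm : ¬ p ∣ m) (hlt : b.factorization p < e) : p ^ (e - b.factorization p) ∣ σ 1 m := by
  have hm0 : m ≠ 0 := by rintro rfl; exact hm (dvd_zero _)
  have he : a.factorization p = e := by
    rw [ha, Nat.factorization_mul (pow_ne_zero _ hp.ne_zero) hm0, hp.factorization_pow,
      Finsupp.add_apply, Finsupp.single_eq_same, Nat.factorization_eq_zero_of_not_dvd hm, add_zero]
  have hc : ordCompl[p] a = m := by
    rw [he]; conv_lhs => rw [ha]
    exact Nat.mul_div_cancel_left _ (pow_pos hp.pos e)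
  have := h.feed hp (he ▸ hlt)
  rwa [hc, he] at this

lemma sig_mul {m n : ℕ} (h : Nat.Coprime m n) : σ 1 (m * n) = σ 1 m * σ 1 n :=
  ArithmeticFunction.isMultiplicative_sigma.map_mul_of_coprime h

lemma sig_prime (p : ℕ) (hp : p.Prime) : σ 1 p = p + 1 := by simpa using sig_pow_one p hp

lemma sig_pow_three (p : ℕ) (hp : p.Prime) : σ 1 (p ^ 3) = (p + 1) * (p ^ 2 + 1) := by
  rw [sig_pow_succ p 2 hp, sig_pow_two p hp]; ring

lemma two_mul_le {u r : ℕ} (hu : Odd u) (hr : Odd r) (h : u ∣ r + 1) : 2 * u ≤ r + 1 := by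
  obtain ⟨k, hk⟩ := h
  have hke : Even k := by
    have : Even (u * k) := hk ▸ hr.add_one
    rcases Nat.even_mul.1 this with h' | h'
    · exact absurd h' (Nat.not_even_iff_odd.2 hu)
    · exact h'
  obtain ⟨l, rfl⟩ := hke
  rcases l with _ | l
  · simp at hk
  · nlinarith

lemma no_cubic {u r : ℕ} (h5 : 5 ≤ u) (hu : Odd u) (hrp : r.Prime) (hr : Odd r) (h : u ∣ r + 1) :
    ¬ r ∣ (u + 1) * (u ^ 2 + 1) := by
  have h2 := two_mul_le hu hr h
  intro hd
  rcases (Nat.Prime.dvd_mul hrp).1 hd with h1 | ⟨t, ht⟩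
  · have := Nat.le_of_dvd (by omega) h1; omega
  · have h3 : u ∣ t + 1 := by
      have h4 : u ∣ u ^ 2 + (t + 1) := by
        have : u ^ 2 + (t + 1) = (r + 1) * t := by nlinarith
        rw [this]; exact h.mul_right _
      exact (Nat.dvd_add_right (dvd_pow_self u (by norm_num))).1 h4
    have h4 := Nat.le_of_dvd (by omega) h3
    obtain ⟨v, rfl⟩ : ∃ v, u = v + 1 := ⟨u - 1, by omega⟩
    nlinarith [Nat.mul_le_mul (show 2 * v + 1 ≤ r by omega) (show v ≤ t by omega)]

lemma Good.mass {q a b : ℕ} (h : Good q a b) {p : ℕ} (hp : p.Prime)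
    (hlt : b.factorization p < a.factorization p) :
    p ^ (2 * a.factorization p) * ordCompl[p] b < q ^ 7 := by
  have h1 := h.feed hp hlt
  set a' := ordCompl[p] a with ha'
  have ha0 : a' ≠ 0 := (Nat.ordCompl_pos p h.ha).ne'
  have hda : a' ∣ a := Nat.ordCompl_dvd a p
  have hle : a' ≤ a * b := le_trans (Nat.le_of_dvd (Nat.pos_of_ne_zero h.ha) hda)
    (Nat.le_mul_of_pos_right _ (Nat.pos_of_ne_zero h.hb))
  have h2 := sig_lt_two q 7 a' ha0 (fun r hr hra => h.big r hr ((hra.trans hda).mul_right _))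
    h.hq (by have := h.lt; omega)
  have h3 := Nat.le_of_dvd (Nat.pos_of_ne_zero (sig_ne a' ha0)) h1
  have h4 : a = p ^ a.factorization p * a' := (Nat.ordProj_mul_ordCompl_eq_self a p).symm
  have h5 : b = p ^ b.factorization p * ordCompl[p] b :=
    (Nat.ordProj_mul_ordCompl_eq_self b p).symm
  generalize ordCompl[p] b = b' at h5 ⊢
  have h6 : p ^ (2 * a.factorization p) * b' = p ^ a.factorization p *
      p ^ (a.factorization p - b.factorization p) * (p ^ b.factorization p * b') := by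
    rw [← mul_assoc, ← pow_add, ← pow_add]
    congr 2; omega
  have h7 : p ^ a.factorization p * p ^ (a.factorization p - b.factorization p) * b ≤
      p ^ a.factorization p * (2 * a') * b :=
    Nat.mul_le_mul_right _ (Nat.mul_le_mul_left _ (by omega))
  have h8 : p ^ a.factorization p * (2 * a') * b = 2 * (a * b) := by
    conv_rhs => rw [h4]
    ring
  have := h.lt
  rw [h6, ← h5]
  omega

lemma Good.big3 {q a b : ℕ} (h : Good q a b) {u : ℕ} (hu : u.Prime)
    (hlt : b.factorization u < a.factorization u) : a.factorization u ≤ 2 := by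
  by_contra hc
  have hq := h.hq
  have hl := h.lt
  have hud : u ∣ a := dvd_of_fac (by omega)
  have hqu := h.big u hu (hud.mul_right _)
  have huo := h.odd hu (hud.mul_right _)
  have hm := h.mass hu hlt
  have hb0 : 0 < ordCompl[u] b := Nat.ordCompl_pos u h.hb
  have h3 : a.factorization u = 3 := by
    by_contra h4
    have a1 : q ^ 7 ≤ u ^ (2 * a.factorization u) :=
      le_trans (Nat.pow_le_pow_left hqu 7) (Nat.pow_le_pow_right hu.pos (by omega))
    have := Nat.le_mul_of_pos_right (u ^ (2 * a.factorization u)) hb0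
    omega
  have hb1 : ordCompl[u] b = 1 := by
    by_contra h4
    have a1 := ge_of_ne_one q _ h4 hb0.ne'
      (fun p hp hd => h.big p hp ((hd.trans (Nat.ordCompl_dvd b u)).mul_left _))
    have a2 := Nat.mul_le_mul (Nat.pow_le_pow_left hqu 6) a1
    rw [h3] at hm
    rw [← pow_succ] at a2
    exact absurd hm (not_lt.2 a2)
  have hb : b = u ^ b.factorization u := by
    have := (Nat.ordProj_mul_ordCompl_eq_self b u).symm
    rwa [hb1, mul_one] at this
  have hbv : ∀ r, r.Prime → r ≠ u → b.factorization r = 0 := fun r hr hru =>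
    Nat.factorization_eq_zero_of_not_dvd (fun hd => hru
      ((Nat.prime_dvd_prime_iff_eq hr hu).1 (hr.dvd_of_dvd_pow (hb ▸ hd))))
  have hb2 : b.factorization u ≠ 0 := by
    intro h0
    rw [h0, pow_zero] at hb
    exact h.b_ne_one (fun h1 => hu.one_lt.ne' (Nat.dvd_one.1 (h1 ▸ hud))) hb
  have hf := h.feed hu hlt
  have ha : a = u ^ 3 * ordCompl[u] a := by
    rw [← h3]; exact (Nat.ordProj_mul_ordCompl_eq_self a u).symm
  have hnd : ¬ u ∣ ordCompl[u] a := Nat.not_dvd_ordCompl hu h.ha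
  have hm0 : ordCompl[u] a ≠ 0 := (Nat.ordCompl_pos u h.ha).ne'
  generalize ordCompl[u] a = m at hf ha hnd hm0
  rw [h3] at hf hlt
  have hma : m ∣ a := Dvd.intro_left _ ha.symm
  have hmb : ∀ p, p.Prime → p ∣ m → q ≤ p := fun p hp hd => h.big p hp ((hd.trans hma).mul_right _)
  have hmo : ∀ p, p.Prime → p ∣ m → Odd p := fun p hp hd => h.odd hp ((hd.trans hma).mul_right _)
  have huf : u ∣ σ 1 m := (dvd_pow_self u (by omega)).trans hf
  have hm1 : m ≠ 1 := by rintro rfl; exact hu.one_lt.ne' (by simpa using huf)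
  have hcase : ∀ r, r.Prime → m ≠ r := by
    rintro r hr rfl
    have hru : m ≠ u := fun e => hnd (e ▸ dvd_rfl)
    have a1 := h.feed' (e := 1) (m := u ^ 3) hr (by rw [ha]; ring)
      (fun hd => hru ((Nat.prime_dvd_prime_iff_eq hr hu).1 (hr.dvd_of_dvd_pow hd)))
      (by rw [hbv m hr hru]; omega)
    rw [hbv m hr hru, sig_pow_three u hu] at a1
    rw [sig_prime m hr] at huf
    exact no_cubic (by omega) huo hr (hmo m hr dvd_rfl) huf (by simpa using a1)
  have hab : a * b = u ^ (3 + b.factorization u) * m := by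
    rw [pow_add]; conv_lhs => rw [ha, hb]
    ring
  rcases (by omega : b.factorization u = 1 ∨ b.factorization u = 2) with e | e
  swap
  · rw [e] at hab
    refine hcase m (prime_of_lt q m hm1 hm0 hmb ?_) rfl
    by_contra hc
    have := Nat.mul_le_mul (Nat.pow_le_pow_left hqu 5) (not_lt.1 hc)
    have e1 : q ^ 5 * (q * q) = q ^ 7 := by ring
    norm_num at hab
    omega
  rw [e] at hab hf
  norm_num at hab hf
  have h4 := Nat.pow_le_pow_left hqu 4
  have hlt3 : 2 * m < q * (q * q) := by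
    by_contra hc
    have := Nat.mul_le_mul h4 (not_lt.1 hc)
    have e1 : q ^ 4 * (q * (q * q)) = q ^ 7 := by ring
    have e2 : u ^ 4 * (2 * m) = 2 * (u ^ 4 * m) := by ring
    omega
  rcases two_of_lt q m hm1 hm0 hmb (by omega) with h1 | ⟨r, s, hr, hs, hrs, rfl⟩
  · exact hcase m h1 rfl
  have hru : r ≠ u := fun e => hnd (e ▸ Dvd.intro _ rfl)
  have hsu : s ≠ u := fun e => hnd (e ▸ Dvd.intro_left _ rfl)
  obtain ⟨k1, hk1⟩ := huo
  obtain ⟨k2, hk2⟩ := hmo r hr (Dvd.intro _ rfl)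
  obtain ⟨k3, hk3⟩ := hmo s hs (Dvd.intro_left _ rfl)
  have hqr := hmb r hr (Dvd.intro _ rfl)
  have hqs := hmb s hs (Dvd.intro_left _ rfl)
  rcases eq_or_lt_of_le hrs with rfl | hrs'
  · rw [← pow_two, sig_pow_two r hr] at hf
    have a1 := h.feed' (e := 2) (m := u ^ 3) hr (by rw [ha]; ring)
      (fun hd => hru ((Nat.prime_dvd_prime_iff_eq hr hu).1 (hr.dvd_of_dvd_pow hd)))
      (by rw [hbv r hr hru]; omega)
    rw [hbv r hr hru, sig_pow_three u hu, Nat.sub_zero] at a1
    have a2 := Nat.le_of_dvd (by omega) hf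
    have a3 : u + 2 ≤ r := by
      by_contra hc
      have : (r + 1) ^ 2 ≤ u ^ 2 := Nat.pow_le_pow_left (by omega) 2
      nlinarith
    have a4 : r ^ 2 ∣ u ^ 2 + 1 := (Nat.Coprime.pow_left 2 ((Nat.Prime.coprime_iff_not_dvd hr).2
      (fun hd => by have := Nat.le_of_dvd (by omega) hd; omega))).dvd_of_dvd_mul_left a1
    have a5 := Nat.le_of_dvd (by omega) a4
    nlinarith [Nat.pow_le_pow_left a3 2]
  · have hcop : Nat.Coprime r s := (Nat.coprime_primes hr hs).2 hrs'.ne
    rw [sig_mul hcop, sig_prime r hr, sig_prime s hs] at hf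
    have hq2 : q * q ≤ u ^ 2 := by rw [pow_two]; exact Nat.mul_le_mul hqu hqu
    by_cases c1 : u ∣ r + 1
    swap
    · have a1 := Nat.le_of_dvd (by omega) ((Nat.Coprime.pow_left 2
        ((Nat.Prime.coprime_iff_not_dvd hu).2 c1)).dvd_of_dvd_mul_left hf)
      nlinarith [Nat.mul_le_mul hqr (show q * q ≤ 2 * s by omega)]
    by_cases c2 : u ∣ s + 1
    swap
    · have a1 := Nat.le_of_dvd (by omega) ((Nat.Coprime.pow_left 2
        ((Nat.Prime.coprime_iff_not_dvd hu).2 c2)).dvd_of_dvd_mul_right hf)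
      nlinarith [Nat.mul_le_mul hqs (show q * q ≤ 2 * r by omega)]
    have a1 := h.feed' (e := 1) (m := u ^ 3 * r) hs (by rw [ha]; ring)
      (fun hd => by
        rcases (Nat.Prime.dvd_mul hs).1 hd with h1 | h1
        · exact hsu ((Nat.prime_dvd_prime_iff_eq hs hu).1 (hs.dvd_of_dvd_pow h1))
        · exact hrs'.ne' ((Nat.prime_dvd_prime_iff_eq hs hr).1 h1))
      (by rw [hbv s hs hsu]; omega)
    rw [hbv s hs hsu, sig_mul (Nat.Coprime.pow_left 3 ((Nat.coprime_primes hu hr).2 hru.symm)),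
      sig_pow_three u hu, sig_prime r hr, Nat.sub_zero, pow_one] at a1
    rcases (Nat.Prime.dvd_mul hs).1 a1 with h1 | h1
    · exact no_cubic (by omega) ⟨k1, hk1⟩ hs ⟨k3, hk3⟩ c2 h1
    · have := Nat.le_of_dvd (by omega) h1; omega

lemma Good.le2 {q a b : ℕ} (h : Good q a b) {p : ℕ} (hp : p.Prime) : a.factorization p ≤ 2 := by
  by_contra hc
  have hd : p ∣ a * b := Dvd.dvd.mul_right (dvd_of_fac (by omega)) _
  rcases lt_or_gt_of_ne (h.ne p hp hd) with h1 | h1
  · have := h.symm.big3 hp h1; omega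
  · have := h.big3 hp h1; omega

lemma Good.feeder {q a b : ℕ} (h : Good q a b) {p : ℕ} (hp : p.Prime)
    (hlt : b.factorization p < a.factorization p) :
    ∃ u, u.Prime ∧ u ≠ p ∧ ((a.factorization u = 1 ∧ p ∣ u + 1) ∨
      (a.factorization u = 2 ∧ p ∣ u ^ 2 + u + 1)) := by
  have hd : p ∣ a * b := Dvd.dvd.mul_right (dvd_of_fac (by omega)) _
  have hv := h.val p hp hd
  have h1 : p ∣ σ 1 a := dvd_of_fac (by omega)
  rw [sig_prod a h.ha] at h1
  obtain ⟨u, hu, hpu⟩ := (Prime.dvd_finsetProd_iff hp.prime _).1 h1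
  have hup := Nat.prime_of_mem_primeFactors hu
  have h0 : 0 < a.factorization u :=
    hup.factorization_pos_of_dvd h.ha (Nat.dvd_of_mem_primeFactors hu)
  refine ⟨u, hup, ?_, ?_⟩
  · rintro rfl; exact not_dvd_sig_pow _ _ hp hpu
  · have h2 := h.le2 hup
    rcases (by omega : a.factorization u = 1 ∨ a.factorization u = 2) with e | e
    · left; rw [e, sig_pow_one u hup] at hpu; exact ⟨e, hpu⟩
    · right; rw [e, sig_pow_two u hup] at hpu; exact ⟨e, hpu⟩

lemma Good.one {q a b : ℕ} (h : Good q a b) {u : ℕ} (hu : u.Prime) (hu2 : a.factorization u = 2)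
    (huniq : ∀ v, v.Prime → a.factorization v = 2 → v = u)
    (hno : ∀ v, v.Prime → a.factorization v = 1 → b.factorization v = 0) : False := by
  classical
  have hud : u ∣ a := dvd_of_fac (by omega)
  obtain ⟨r, hr, hmax⟩ := Finset.exists_max_image (a.primeFactors.filter
    (fun r => r = u ∨ ∃ K c, Even K ∧ c < K ∧ r + c = K * u)) id
    ⟨u, Finset.mem_filter.2 ⟨Nat.mem_primeFactors.2 ⟨hu, hud, h.ha⟩, Or.inl rfl⟩⟩
  obtain ⟨hr1, hr2⟩ := Finset.mem_filter.1 hr
  have hrp := Nat.prime_of_mem_primeFactors hr1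
  have hrd := Nat.dvd_of_mem_primeFactors hr1
  have h0 : 0 < a.factorization r := hrp.factorization_pos_of_dvd h.ha hrd
  have hlt : b.factorization r < a.factorization r := by
    have h2 := h.le2 hrp
    have h3 := h.symm.le2 hrp
    have h4 := h.ne r hrp (hrd.mul_right _)
    have h5 := hno r hrp
    omega
  obtain ⟨v, hv, hvr, h1 | h1⟩ := h.feeder hrp hlt
  · obtain ⟨e, k, hk⟩ := h1
    have hvd : v ∣ a := dvd_of_fac (by omega)
    have hro := h.odd hrp (hrd.mul_right _)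
    have hvo := h.odd hv (hvd.mul_right _)
    have hke : Even k := by
      have : Even (r * k) := hk ▸ hvo.add_one
      rcases Nat.even_mul.1 this with h' | h'
      · exact absurd h' (Nat.not_even_iff_odd.2 hro)
      · exact h'
    have hk2 : 2 ≤ k := by
      obtain ⟨l, rfl⟩ := hke
      rcases l with _ | l
      · simp at hk
      · omega
    have hQ : ∃ K c, c < K ∧ r + c = K * u := by
      rcases hr2 with rfl | ⟨K, c, _, h2, h3⟩
      · exact ⟨1, 0, by omega, by ring⟩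
      · exact ⟨K, c, h2, h3⟩
    obtain ⟨K, c, h2, h3⟩ := hQ
    have := hmax v (Finset.mem_filter.2 ⟨Nat.mem_primeFactors.2 ⟨hv, hvd, h.ha⟩,
      Or.inr ⟨k * K, k * c + 1, hke.mul_right _, by nlinarith, by
        rw [mul_assoc, ← h3]; nlinarith⟩⟩)
    simp only [id] at this
    have h5 := hrp.two_le
    nlinarith
  · obtain ⟨e, hk⟩ := h1
    have hvu := huniq v hv e
    subst hvu
    rcases hr2 with rfl | ⟨K, c, h1, h2, h3⟩
    · exact hvr rfl
    · have := h.big v hv (hud.mul_right _)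
      have := h.hq
      exact no_one_quad v r K c (by omega) (h.odd hv (hud.mul_right _)) h1 h2 h3 hk

lemma Good.nonlin {q a b : ℕ} (h : Good q a b) (hab : a * b ≠ 1) :
    ∃ u, u.Prime ∧ (a.factorization u = 2 ∨ b.factorization u = 2) := by
  have key : ∀ {a b : ℕ}, Good q a b → ∀ P, P.Prime → (∀ r, r.Prime → r ∣ a * b → r ≤ P) →
      b.factorization P < a.factorization P → ∃ u, u.Prime ∧ a.factorization u = 2 := by
    intro a b h P hP hmax hlt
    obtain ⟨v, hv, hvr, h1 | h1⟩ := h.feeder hP hlt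
    · exfalso
      have hvd : v ∣ a := dvd_of_fac (by omega)
      have hPd : P ∣ a := dvd_of_fac (by omega)
      have h2 := hmax v hv (hvd.mul_right _)
      have h3 := Nat.le_of_dvd (by omega) h1.2
      obtain ⟨k, hk⟩ := h.odd hv (hvd.mul_right _)
      obtain ⟨l, hl⟩ := h.odd hP (hPd.mul_right _)
      omega
    · exact ⟨v, hv, h1.1⟩
  have hab0 : a * b ≠ 0 := mul_ne_zero h.ha h.hb
  obtain ⟨P, hP, hmax⟩ := Finset.exists_max_image (a * b).primeFactors id
    (Nat.nonempty_primeFactors.2 (by omega))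
  have hPp := Nat.prime_of_mem_primeFactors hP
  have hm : ∀ r, r.Prime → r ∣ a * b → r ≤ P :=
    fun r hr hd => hmax r (Nat.mem_primeFactors.2 ⟨hr, hd, hab0⟩)
  rcases lt_or_gt_of_ne (h.ne P hPp (Nat.dvd_of_mem_primeFactors hP)) with h1 | h1
  · obtain ⟨u, hu, h2⟩ := key h.symm P hPp (fun r hr hd => hm r hr (mul_comm b a ▸ hd)) h1
    exact ⟨u, hu, Or.inr h2⟩
  · obtain ⟨u, hu, h2⟩ := key h P hPp hm h1
    exact ⟨u, hu, Or.inl h2⟩

/-- exceptional roots -/
def Exc (u : ℕ) : Prop := (∃ w, u < w ∧ w ∣ u ^ 2 + u + 1 ∧ u ∣ w ^ 2 + w + 1) ∨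
  (Odd u ∧ ∃ w, u ^ 2 ∣ w ^ 2 + w + 1 ∧ w ^ 4 < u ^ 5)

def EX (q N : ℕ) : Prop := q ^ 6 ≤ N ∧ ∃ u, u.Prime ∧ u ∣ N ∧ Exc u ∧ u ^ 5 ≤ q ^ 6

lemma Good.same {q a b : ℕ} (h : Good q a b) {u w : ℕ} (hu : u.Prime) (hw : w.Prime)
    (huw : u < w) (hu2 : a.factorization u = 2) (hw2 : a.factorization w = 2) : EX q (a * b) := by
  have hcop : Nat.Coprime u w := (Nat.coprime_primes hu hw).2 huw.ne
  have hud : u ∣ a := dvd_of_fac (by omega)
  have hwd : w ∣ a := dvd_of_fac (by omega)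
  have hqu := h.big u hu (hud.mul_right _)
  have hq := h.hq
  have hlt := h.lt
  have huo := h.odd hu (hud.mul_right _)
  have hwo := h.odd hw (hwd.mul_right _)
  have huw2 : u + 2 ≤ w := by
    obtain ⟨k, hk⟩ := huo
    obtain ⟨l, hl⟩ := hwo
    omega
  have hbu : b.factorization u ≤ 1 := by
    have := h.symm.le2 hu; have := h.ne u hu (hud.mul_right _); omega
  have hbw : b.factorization w ≤ 1 := by
    have := h.symm.le2 hw; have := h.ne w hw (hwd.mul_right _); omega
  have hw2n : ¬ w ^ 2 ∣ u ^ 2 + u + 1 := fun hd => by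
    have := Nat.le_of_dvd (by omega) hd
    nlinarith [Nat.pow_le_pow_left huw2 2]
  have fin : ∀ N, a * b = N → q * u ^ 5 ≤ N → Exc u → EX q (a * b) := by
    intro N hN h1 h2
    refine ⟨?_, u, hu, hud.mul_right _, h2, ?_⟩
    · have := Nat.mul_le_mul_left q (Nat.pow_le_pow_left hqu 5)
      have e : q * q ^ 5 = q ^ 6 := by ring
      omega
    · have e : q ^ 7 = q * q ^ 6 := by ring
      exact Nat.le_of_mul_le_mul_left (by omega : q * u ^ 5 ≤ q * q ^ 6) (by omega)
  obtain ⟨a1, ha1⟩ : u ^ 2 * w ^ 2 ∣ a := (Nat.Coprime.pow 2 2 hcop).mul_dvd_of_dvd_of_dvd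
    ((hu.pow_dvd_iff_le_factorization h.ha).2 hu2.ge)
    ((hw.pow_dvd_iff_le_factorization h.ha).2 hw2.ge)
  have ha10 : a1 ≠ 0 := by rintro rfl; exact h.ha (by simpa using ha1)
  have hnw : ¬ u ∣ w ^ 2 := fun hd => huw.ne ((Nat.prime_dvd_prime_iff_eq hu hw).1
    (hu.dvd_of_dvd_pow hd))
  have hnu : ¬ w ∣ u ^ 2 := fun hd => huw.ne' ((Nat.prime_dvd_prime_iff_eq hw hu).1
    (hw.dvd_of_dvd_pow hd))
  by_cases ha11 : a1 = 1
  · subst ha11
    rw [mul_one] at ha1
    have hfu := h.feed' hu ha1 hnw (by omega)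
    have hfw := h.feed' hw (ha1.trans (mul_comm _ _)) hnu (by omega)
    rw [sig_pow_two w hw] at hfu
    rw [sig_pow_two u hu] at hfw
    have e1 : b.factorization w = 1 := by
      by_contra hc
      rw [show b.factorization w = 0 by omega] at hfw
      exact hw2n hfw
    rw [e1] at hfw
    have hfw' : w ∣ u ^ 2 + u + 1 := by simpa using hfw
    have e2 : b.factorization u = 1 := by
      by_contra hc
      rw [show b.factorization u = 0 by omega] at hfu
      exact no_sq_cycle u w (by omega) huw2 hfw' hfu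
    rw [e2] at hfu
    refine fin _ rfl ?_ (Or.inl ⟨w, huw, hfw', by simpa using hfu⟩)
    have h1 := Nat.le_of_dvd (Nat.pos_of_ne_zero h.hb) (hcop.mul_dvd_of_dvd_of_dvd
      (dvd_of_fac (by omega) : u ∣ b) (dvd_of_fac (by omega) : w ∣ b))
    calc q * u ^ 5 = u ^ 2 * u ^ 2 * (u * q) := by ring
      _ ≤ u ^ 2 * w ^ 2 * (u * w) := by gcongr; omega
      _ ≤ a * b := by rw [← ha1]; exact Nat.mul_le_mul_left _ h1
  have hb1 : b ≠ 1 := h.b_ne_one (fun h1 => hu.one_lt.ne' (Nat.dvd_one.1 (h1 ▸ hud)))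
  have h4 : q ^ 4 ≤ u ^ 2 * w ^ 2 := by
    have : q ^ 4 = q ^ 2 * q ^ 2 := by ring
    rw [this]
    exact Nat.mul_le_mul (Nat.pow_le_pow_left hqu 2) (Nat.pow_le_pow_left (by omega) 2)
  have hsm : a1 * b < q * (q * q) := by
    by_contra hc
    have := Nat.mul_le_mul h4 (not_lt.1 hc)
    have e1 : q ^ 4 * (q * (q * q)) = q ^ 7 := by ring
    have e2 : u ^ 2 * w ^ 2 * (a1 * b) = a * b := by rw [ha1]; ring
    omega
  have hbb : ∀ p, p.Prime → p ∣ b → q ≤ p := fun p hp hd => h.big p hp (hd.mul_left _)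
  have hda : a1 ∣ a := Dvd.intro_left _ ha1.symm
  have hab : ∀ p, p.Prime → p ∣ a1 → q ≤ p :=
    fun p hp hd => h.big p hp ((hd.trans hda).mul_right _)
  have hqb := ge_of_ne_one q b hb1 h.hb hbb
  have hqa := ge_of_ne_one q a1 ha11 ha10 hab
  have hbp : b.Prime := prime_of_lt q b hb1 h.hb hbb (by
    by_contra hc
    have := Nat.mul_le_mul hqa (not_lt.1 hc); omega)
  have hr : a1.Prime := prime_of_lt q a1 ha11 ha10 hab (by
    by_contra hc
    have := Nat.mul_le_mul (not_lt.1 hc) hqb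
    have e : q * q * q = q * (q * q) := by ring
    omega)
  rename' a1 => r
  have hro := h.odd hr (hda.mul_right _)
  have hfa : ∀ v, a.factorization v = (if u = v then 2 else 0) + (if w = v then 2 else 0) +
      (if r = v then 1 else 0) := by
    intro v
    rw [ha1, Nat.factorization_mul (mul_ne_zero (pow_ne_zero _ hu.ne_zero)
      (pow_ne_zero _ hw.ne_zero)) hr.ne_zero, Nat.factorization_mul (pow_ne_zero _ hu.ne_zero)
      (pow_ne_zero _ hw.ne_zero), hu.factorization_pow, hw.factorization_pow, hr.factorization]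
    simp only [Finsupp.add_apply, Finsupp.single_apply]
  have hfb : ∀ v, b.factorization v = if b = v then 1 else 0 := by
    intro v; rw [hbp.factorization, Finsupp.single_apply]
  have hru : r ≠ u := by
    rintro rfl
    have := hfa r
    simp only [if_true] at this; omega
  have hrw : r ≠ w := by
    rintro rfl
    have := hfa r
    simp only [if_true] at this; omega
  have hbr : b ≠ r := by
    rintro rfl
    have h1 := h.ne b hbp (Dvd.intro_left _ rfl)
    rw [hfa, hfb, if_neg hru.symm, if_neg hrw.symm] at h1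
    simp at h1
  have hcu : Nat.Coprime (u ^ 2) r := Nat.Coprime.pow_left 2 ((Nat.coprime_primes hu hr).2 hru.symm)
  have hcw : Nat.Coprime (w ^ 2) r := Nat.Coprime.pow_left 2 ((Nat.coprime_primes hw hr).2 hrw.symm)
  have hfu := h.feed' (e := 2) (m := w ^ 2 * r) hu (by rw [ha1]; ring) (fun hd => by
    rcases (Nat.Prime.dvd_mul hu).1 hd with h1 | h1
    exacts [hnw h1, hru.symm ((Nat.prime_dvd_prime_iff_eq hu hr).1 h1)]) (by omega)
  have hfw := h.feed' (e := 2) (m := u ^ 2 * r) hw (by rw [ha1]; ring) (fun hd => by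
    rcases (Nat.Prime.dvd_mul hw).1 hd with h1 | h1
    exacts [hnu h1, hrw.symm ((Nat.prime_dvd_prime_iff_eq hw hr).1 h1)]) (by omega)
  have hfr := h.feed' (e := 1) (m := u ^ 2 * w ^ 2) hr (by rw [ha1]; ring) (fun hd => by
    rcases (Nat.Prime.dvd_mul hr).1 hd with h1 | h1
    exacts [hru ((Nat.prime_dvd_prime_iff_eq hr hu).1 (hr.dvd_of_dvd_pow h1)),
      hrw ((Nat.prime_dvd_prime_iff_eq hr hw).1 (hr.dvd_of_dvd_pow h1))])
    (by rw [hfb, if_neg hbr]; omega)
  rw [sig_mul hcw, sig_pow_two w hw, sig_prime r hr, hfb] at hfu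
  rw [sig_mul hcu, sig_pow_two u hu, sig_prime r hr, hfb] at hfw
  rw [sig_mul (Nat.Coprime.pow 2 2 hcop), sig_pow_two u hu, sig_pow_two w hw, hfb, if_neg hbr,
    Nat.sub_zero, pow_one] at hfr
  have A : ∀ v, 5 ≤ v → Odd v → v ∣ r + 1 → ¬ r ∣ v ^ 2 + v + 1 := by
    rintro v h5 hv ⟨k, hk⟩
    have hke : Even k := by
      have : Even (v * k) := hk ▸ hro.add_one
      rcases Nat.even_mul.1 this with h' | h'
      · exact absurd h' (Nat.not_even_iff_odd.2 hv)
      · exact h'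
    refine no_one_quad v r k 1 h5 hv hke ?_ (by rw [hk, mul_comm])
    obtain ⟨l, rfl⟩ := hke
    rcases l with _ | l
    · simp at hk
    · omega
  have B : w ∣ r + 1 → r ∣ u ^ 2 + u + 1 := fun h1 =>
    ((Nat.Prime.dvd_mul hr).1 hfr).resolve_right (A w (by omega) hwo h1)
  by_cases hbw' : b = w
  swap
  · exfalso
    rw [if_neg hbw', Nat.sub_zero] at hfw
    have c1 : w ∣ r + 1 := by
      by_contra hc
      exact hw2n ((Nat.Coprime.pow_left 2
        ((Nat.Prime.coprime_iff_not_dvd hw).2 hc)).dvd_of_dvd_mul_right hfw)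
    have c2 := B c1
    have c3 := two_mul_le hwo hro c1
    have c4 : ¬ w ∣ u ^ 2 + u + 1 := fun hd => by
      have := Nat.le_of_dvd (by omega)
        (((Nat.coprime_primes hw hr).2 hrw.symm).mul_dvd_of_dvd_of_dvd hd c2)
      nlinarith [Nat.mul_le_mul huw2 (show u + 2 ≤ r by omega)]
    have c5 := two_mul_le hwo.pow hro ((Nat.Coprime.pow_left 2
        ((Nat.Prime.coprime_iff_not_dvd hw).2 c4)).dvd_of_dvd_mul_left hfw)
    have := Nat.le_of_dvd (by omega) c2
    nlinarith [Nat.pow_le_pow_left huw2 2]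
  subst hbw'
  rw [if_neg huw.ne', Nat.sub_zero] at hfu
  rw [if_pos rfl] at hfw
  have hN : a * b = u ^ 2 * b ^ 3 * r := by rw [ha1]; ring
  have hm5 : q * u ^ 5 ≤ u ^ 2 * b ^ 3 * r := by
    calc q * u ^ 5 = u ^ 2 * u ^ 3 * q := by ring
      _ ≤ _ := by gcongr
  refine fin _ hN hm5 ?_
  rcases (Nat.Prime.dvd_mul hw).1 (by simpa using hfw : b ∣ (u ^ 2 + u + 1) * (r + 1)) with c1 | c1
  · refine Or.inl ⟨b, huw, c1, ?_⟩
    by_contra hc
    have c2 := Nat.le_of_dvd (by omega) ((Nat.Coprime.pow_left 2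
        ((Nat.Prime.coprime_iff_not_dvd hu).2 hc)).dvd_of_dvd_mul_left hfu)
    have c3 : q ^ 7 ≤ u ^ 2 * b ^ 3 * (2 * r) := by
      calc q ^ 7 = q ^ 2 * q ^ 3 * q ^ 2 := by ring
        _ ≤ u ^ 2 * b ^ 3 * u ^ 2 := by gcongr
        _ ≤ _ := Nat.mul_le_mul_left _ (by omega)
    have e : u ^ 2 * b ^ 3 * (2 * r) = 2 * (u ^ 2 * b ^ 3 * r) := by ring
    omega
  · have c2 := B c1
    have c3 : ¬ u ∣ r + 1 := fun hd => A u (by omega) huo hd c2
    refine Or.inr ⟨huo, b, (Nat.Coprime.pow_left 2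
        ((Nat.Prime.coprime_iff_not_dvd hu).2 c3)).dvd_of_dvd_mul_right hfu, ?_⟩
    have c4 := two_mul_le hwo hro c1
    have c5 : u ^ 2 * b ^ 4 ≤ u ^ 2 * b ^ 3 * r := by
      calc u ^ 2 * b ^ 4 = u ^ 2 * b ^ 3 * b := by ring
        _ ≤ _ := Nat.mul_le_mul_left _ (by omega)
    have c6 : q ^ 7 ≤ u ^ 2 * u ^ 5 := by
      rw [← pow_add]; exact Nat.pow_le_pow_left hqu 7
    exact Nat.lt_of_mul_lt_mul_left (a := u ^ 2) (by omega)

lemma Good.cross {q a b : ℕ} (h : Good q a b) {v w : ℕ} (hv : v.Prime) (hw : w.Prime)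
    (hv1 : a.factorization v = 1) (hv2 : b.factorization v = 2) (hw2 : a.factorization w = 2)
    (hw1 : b.factorization w = 1) : w ∣ v + 1 := by
  have hab0 : a * b ≠ 0 := mul_ne_zero h.ha h.hb
  have hf : ∀ r, (a * b).factorization r = a.factorization r + b.factorization r := by
    intro r; rw [Nat.factorization_mul h.ha h.hb]; rfl
  obtain ⟨m, hm⟩ : v ^ 3 * w ^ 3 ∣ a * b := (Nat.Coprime.pow 3 3 ((Nat.coprime_primes hv hw).2
    (by rintro rfl; omega))).mul_dvd_of_dvd_of_dvd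
    ((hv.pow_dvd_iff_le_factorization hab0).2 (by rw [hf]; omega))
    ((hw.pow_dvd_iff_le_factorization hab0).2 (by rw [hf]; omega))
  have h2 : q ^ 3 * q ^ 3 ≤ v ^ 3 * w ^ 3 := Nat.mul_le_mul
    (Nat.pow_le_pow_left (h.big v hv ((dvd_of_fac (by omega) : v ∣ a).mul_right _)) 3)
    (Nat.pow_le_pow_left (h.big w hw ((dvd_of_fac (by omega) : w ∣ a).mul_right _)) 3)
  have hm1 : m = 1 := by
    by_contra hc
    have h3 := ge_of_ne_one q m hc (by rintro rfl; exact hab0 (by simpa using hm))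
      (fun p hp hd => h.big p hp (hm ▸ hd.mul_left _))
    have h4 := Nat.mul_le_mul h2 h3
    have e : q ^ 3 * q ^ 3 * q = q ^ 7 := by ring
    have := h.lt
    omega
  obtain ⟨u, hu, huw, h1⟩ := h.feeder hw (by omega)
  have hud : u ∣ v ^ 3 * w ^ 3 := by
    rw [← mul_one (v ^ 3 * w ^ 3), ← hm1, ← hm]
    exact (dvd_of_fac (by rcases h1 with h1 | h1 <;> omega) : u ∣ a).mul_right _
  have huv : u = v := by
    rcases (Nat.Prime.dvd_mul hu).1 hud with h3 | h3
    · exact (Nat.prime_dvd_prime_iff_eq hu hv).1 (hu.dvd_of_dvd_pow h3)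
    · exact absurd ((Nat.prime_dvd_prime_iff_eq hu hw).1 (hu.dvd_of_dvd_pow h3)) huw
  subst huv
  rcases h1 with h1 | h1
  · exact h1.2
  · omega

lemma Good.exc {q a b : ℕ} (h : Good q a b) (hab : a * b ≠ 1) : EX q (a * b) := by
  by_contra hE
  have uniq : ∀ {a b : ℕ}, Good q a b → ¬ EX q (a * b) → ∀ u, u.Prime → a.factorization u = 2 →
      ∀ v, v.Prime → a.factorization v = 2 → v = u := by
    intro a b h hE u hu hu2 v hv hv2
    rcases lt_trichotomy u v with h1 | h1 | h1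
    · exact (hE (h.same hu hv h1 hu2 hv2)).elim
    · exact h1.symm
    · exact (hE (h.same hv hu h1 hv2 hu2)).elim
  have key : ∀ {a b : ℕ}, Good q a b → ¬ EX q (a * b) → ∀ u, u.Prime → a.factorization u = 2 →
      False := by
    intro a b h hE u hu hu2
    by_cases hno : ∀ v, v.Prime → a.factorization v = 1 → b.factorization v = 0
    · exact h.one hu hu2 (uniq h hE u hu hu2) hno
    push Not at hno
    obtain ⟨v, hv, hv1, hv0⟩ := hno
    have hvd : v ∣ a := dvd_of_fac (by omega)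
    have hv2 : b.factorization v = 2 := by
      have := h.symm.le2 hv
      have := h.ne v hv (hvd.mul_right _)
      omega
    refine h.symm.one hv hv2 (uniq h.symm (mul_comm a b ▸ hE) v hv hv2) ?_
    intro w hw hw1
    by_contra hw0
    have hwd : w ∣ b := dvd_of_fac (by omega)
    have hw2 : a.factorization w = 2 := by
      have := h.le2 hw
      have := h.ne w hw (hwd.mul_left _)
      omega
    have h1 := Nat.le_of_dvd (by omega) (h.cross hv hw hv1 hv2 hw2 hw1)
    have h2 := Nat.le_of_dvd (by omega) (h.symm.cross hw hv hw1 hw2 hv2 hv1)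
    obtain ⟨k, hk⟩ := h.odd hv (hvd.mul_right _)
    obtain ⟨l, hl⟩ := h.odd hw (hwd.mul_left _)
    have : v ≠ w := by rintro rfl; omega
    omega
  obtain ⟨u, hu, h1 | h1⟩ := h.nonlin hab
  · exact key h hE u hu h1
  · exact key h.symm (mul_comm a b ▸ hE) u hu h1

theorem pair (q : ℕ) (hq : 14 ≤ q) : ∀ N a b : ℕ, a * b = N → a ≠ 0 → b ≠ 0 → a ≠ b →
    (∀ p, p.Prime → p ∣ a * b → q ≤ p) →
    (∀ p, p.Prime → p ∣ a * b → (σ 1 a).factorization p + b.factorization p =
      (σ 1 b).factorization p + a.factorization p) →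
    q ^ 7 ≤ 2 * (a * b) ∨ EX q (a * b) := by
  intro N
  induction N using Nat.strong_induction_on with
  | _ N ih =>
  intro a b hN ha hb hab hbig hval
  by_cases hne : ∀ p, p.Prime → p ∣ a * b → a.factorization p ≠ b.factorization p
  · refine or_iff_not_imp_left.2 (fun hc => ?_)
    refine Good.exc ⟨hq, ha, hb, hbig, hne, hval, by omega⟩ ?_
    intro h1
    exact hab (by rw [Nat.eq_one_of_mul_eq_one_right h1, Nat.eq_one_of_mul_eq_one_left h1])
  push Not at hne
  obtain ⟨p, hp, hd, he⟩ := hne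
  have hf : (a * b).factorization p = a.factorization p + b.factorization p := by
    rw [Nat.factorization_mul ha hb]; rfl
  have h0 := hp.factorization_pos_of_dvd (mul_ne_zero ha hb) hd
  have h1 := sig_split p a hp ha
  have h2 := sig_split p b hp hb
  have h3 : a = p ^ a.factorization p * ordCompl[p] a :=
    (Nat.ordProj_mul_ordCompl_eq_self a p).symm
  have h4 : b = p ^ b.factorization p * ordCompl[p] b :=
    (Nat.ordProj_mul_ordCompl_eq_self b p).symm
  have ha0 : ordCompl[p] a ≠ 0 := (Nat.ordCompl_pos p ha).ne'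
  have hb0 : ordCompl[p] b ≠ 0 := (Nat.ordCompl_pos p hb).ne'
  generalize ordCompl[p] a = a' at h1 h3 ha0
  generalize ordCompl[p] b = b' at h2 h4 hb0
  rw [← he] at h2 h4
  have he0 : a.factorization p ≠ 0 := by omega
  generalize a.factorization p = e at h1 h2 h3 h4 he0
  have hpe : 1 < p ^ e := Nat.one_lt_pow he0 hp.one_lt
  have hpe0 : p ^ e ≠ 0 := by omega
  have hm : a * b = (p ^ e * p ^ e) * (a' * b') := by rw [h3, h4]; ring
  have hlt : a' * b' < a * b := by
    rw [hm]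
    have : 0 < a' * b' := Nat.pos_of_ne_zero (mul_ne_zero ha0 hb0)
    nlinarith [Nat.mul_le_mul hpe hpe]
  have hdv : a' * b' ∣ a * b := Dvd.intro_left _ hm.symm
  have := ih (a' * b') (hN ▸ hlt) a' b' rfl ha0 hb0 (by rintro rfl; exact hab (h3.trans h4.symm))
    (fun r hr hrd => hbig r hr (hrd.trans hdv)) (fun r hr hrd => by
      have h5 := hval r hr (hrd.trans hdv)
      rw [h1, h2, h3, h4, Nat.factorization_mul (sig_ne _ hpe0) (sig_ne _ ha0),
        Nat.factorization_mul (sig_ne _ hpe0) (sig_ne _ hb0), Nat.factorization_mul hpe0 ha0,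
        Nat.factorization_mul hpe0 hb0] at h5
      simp only [Finsupp.add_apply] at h5
      omega)
  rcases this with h | ⟨h, u, h5, h6, h7⟩
  · left; omega
  · exact Or.inr ⟨by omega, u, h5, h6.trans hdv, h7⟩

end Pool.Agent.Lib.MP_c05f82_nt.PS
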