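import Pool.Agent.Lib.MP_c05f82_nt.PSPair

set_option autoImplicit false

open ArithmeticFunction.sigma

namespace Pool.Agent.Lib.MP_c05f82_nt.PS

/-- the part of `m` supported on the primes of `C` -/
def part (C : Finset ℕ) (m : ℕ) : ℕ := ∏ p ∈ C, p ^ m.factorization p

lemma part_ne {C : Finset ℕ} (hC : ∀ p ∈ C, p.Prime) (m : ℕ) : part C m ≠ 0 :=
  Finset.prod_ne_zero_iff.2 (fun p hp => pow_ne_zero _ (hC p hp).ne_zero)

lemma part_fac {C : Finset ℕ} (hC : ∀ p ∈ C, p.Prime) (m r : ℕ) :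
    (part C m).factorization r = if r ∈ C then m.factorization r else 0 := by
  unfold part
  rw [Nat.factorization_prod (fun p hp => pow_ne_zero _ (hC p hp).ne_zero), Finsupp.finsetSum_apply]
  rw [Finset.sum_congr rfl (fun p hp => by
    rw [(hC p hp).factorization_pow, Finsupp.single_apply])]
  simp

lemma mem_of_dvd_part {C : Finset ℕ} (hC : ∀ p ∈ C, p.Prime) (m : ℕ) {r : ℕ} (hr : r.Prime)
    (hd : r ∣ part C m) : r ∈ C := by
  have := hr.factorization_pos_of_dvd (part_ne hC m) hd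
  rw [part_fac hC] at this
  by_contra hc
  simp [hc] at this

lemma part_dvd {C : Finset ℕ} (hC : ∀ p ∈ C, p.Prime) {m : ℕ} (hm : m ≠ 0) : part C m ∣ m := by
  rw [← Nat.factorization_prime_le_iff_dvd (part_ne hC m) hm]
  intro p _
  rw [part_fac hC]
  split_ifs <;> omega

lemma sig_fac (m r : ℕ) (hm : m ≠ 0) (S : Finset ℕ) (hS : m.primeFactors ⊆ S) :
    (σ 1 m).factorization r = ∑ u ∈ S, (σ 1 (u ^ m.factorization u)).factorization r := by
  rw [sig_prod m hm, Nat.factorization_prod (fun p hp => sig_ne _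
    (pow_ne_zero _ (Nat.prime_of_mem_primeFactors hp).ne_zero)), Finsupp.finsetSum_apply]
  refine Finset.sum_subset hS (fun u _ hu => ?_)
  have : m.factorization u = 0 := by
    rw [← Nat.support_factorization] at hu
    exact Finsupp.notMem_support_iff.1 hu
  simp [this]

lemma sig_part_fac {C : Finset ℕ} (hC : ∀ p ∈ C, p.Prime) {m : ℕ} (hm : m ≠ 0) {r : ℕ}
    (hin : ∀ v, v.Prime → v ∉ C → ¬ r ∣ σ 1 (v ^ m.factorization v)) :
    (σ 1 (part C m)).factorization r = (σ 1 m).factorization r := by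
  classical
  rw [sig_fac m r hm (m.primeFactors ∪ C) Finset.subset_union_left,
    sig_fac (part C m) r (part_ne hC m) (m.primeFactors ∪ C) (fun p hp => Finset.mem_union_right _
      (mem_of_dvd_part hC m (Nat.prime_of_mem_primeFactors hp) (Nat.dvd_of_mem_primeFactors hp)))]
  refine Finset.sum_congr rfl (fun u hu => ?_)
  rw [part_fac hC]
  split_ifs with h
  · rfl
  · have hup : u.Prime := by
      rcases Finset.mem_union.1 hu with h1 | h1
      · exact Nat.prime_of_mem_primeFactors h1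
      · exact absurd h1 h
    rw [Nat.factorization_eq_zero_of_not_dvd (hin u hup h)]
    simp

variable {k : ℕ}

/-- a primitive friendly tuple -/
structure PF (n : Fin k → ℕ) : Prop where
  ne : ∀ i, n i ≠ 0
  fr : ∀ i j, σ 1 (n i) * n j = σ 1 (n j) * n i
  pr : ∀ p, p.Prime → ∀ i, p ∣ n i → ∃ j, (n i).factorization p ≠ (n j).factorization p

/-- no edge enters `U` from outside -/
def InCl (n : Fin k → ℕ) (U : Finset ℕ) : Prop :=
  ∀ p ∈ U, ∀ v, v.Prime → v ∉ U → ∀ i, ¬ p ∣ σ 1 (v ^ (n i).factorization v)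

open Classical in
/-- cost of a root -/
noncomputable def nu (r : ℕ) : ℕ := if Exc r then r ^ 5 else r ^ 7

lemma nu_le {r : ℕ} (hr : 0 < r) : nu r ≤ r ^ 7 := by
  unfold nu
  split_ifs
  · exact Nat.pow_le_pow_right hr (by norm_num)
  · exact le_rfl

lemma nu_gen {r K M : ℕ} (hr : 0 < r) (h : r ^ K ≤ 2 * M) : nu r ^ K ≤ (2 * M) ^ 7 :=
  calc nu r ^ K ≤ (r ^ 7) ^ K := Nat.pow_le_pow_left (nu_le hr) _
    _ = (r ^ K) ^ 7 := by ring
    _ ≤ _ := Nat.pow_le_pow_left h _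

lemma local_mass (hk : 2 ≤ k) {n : Fin k → ℕ} (hn : PF n) (C : Finset ℕ) (q : ℕ)
    (hq : 2 * (k + 5) ≤ q) (hqC : q ∈ C) (hC : ∀ p ∈ C, p.Prime ∧ q ≤ p ∧ ∃ i, p ∣ n i)
    (hin : InCl n C) : ∃ r ∈ C, nu r ^ (k + 5) ≤ (2 * ∏ i, part C (n i)) ^ 7 := by
  classical
  have hP : ∀ p ∈ C, p.Prime := fun p hp => (hC p hp).1
  have hbig : ∀ i p, p.Prime → p ∣ part C (n i) → q ≤ p :=
    fun i p hp hd => (hC p (mem_of_dvd_part hP _ hp hd)).2.1
  have hval : ∀ i j, ∀ p ∈ C, (σ 1 (part C (n i))).factorization p +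
      (part C (n j)).factorization p =
      (σ 1 (part C (n j))).factorization p + (part C (n i)).factorization p := by
    intro i j p hp
    rw [sig_part_fac hP (hn.ne i) (fun v hv hvC => hin p hp v hv hvC i),
      sig_part_fac hP (hn.ne j) (fun v hv hvC => hin p hp v hv hvC j), part_fac hP, part_fac hP,
      if_pos hp, if_pos hp]
    have := congrArg (fun x => x.factorization p) (hn.fr i j)
    simp only [Nat.factorization_mul (sig_ne _ (hn.ne i)) (hn.ne j),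
      Nat.factorization_mul (sig_ne _ (hn.ne j)) (hn.ne i), Finsupp.add_apply] at this
    exact this
  obtain ⟨hqp, -, i, hi⟩ := hC q hqC
  have hpos : ∀ l, 1 ≤ part C (n l) := fun l => Nat.pos_of_ne_zero (part_ne hP _)
  by_cases h1 : ∃ j, part C (n j) = 1
  · obtain ⟨j, hj⟩ := h1
    have hd := dvd_sig_of_val (part C (n i)) (part_ne hP _) (fun p hp hd => by
      have := hval i j p (mem_of_dvd_part hP _ hp hd)
      rw [hj] at this
      simpa using this)
    have hqd : q ∣ part C (n i) := dvd_of_fac (by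
      rw [part_fac hP, if_pos hqC]
      exact (hqp.factorization_pos_of_dvd (hn.ne i) hi).ne')
    have h2 := mp_big q (k + 5) (part C (n i))
      (lt_of_lt_of_le hqp.one_lt (Nat.le_of_dvd (hpos i) hqd)) (hbig i) hq hd
    have h3 : part C (n i) ≤ ∏ l, part C (n l) :=
      Finset.single_le_prod' (fun l _ => hpos l) (Finset.mem_univ i)
    exact ⟨q, hqC, nu_gen hqp.pos (by omega)⟩
  push Not at h1
  have hge : ∀ l, q ≤ part C (n l) := fun l => ge_of_ne_one q _ (h1 l) (part_ne hP _) (hbig l)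
  obtain ⟨j, hj⟩ := hn.pr q hqp i hi
  have hij : i ≠ j := by rintro rfl; exact hj rfl
  have h2 := pair q (by omega) _ (part C (n i)) (part C (n j)) rfl (part_ne hP _) (part_ne hP _)
    (fun h => hj (by
      have := congrArg (fun x => x.factorization q) h
      simpa [part_fac hP, hqC] using this))
    (fun p hp hd => by
      rcases (Nat.Prime.dvd_mul hp).1 hd with h | h
      exacts [hbig i p hp h, hbig j p hp h])
    (fun p hp hd => by
      rcases (Nat.Prime.dvd_mul hp).1 hd with h | h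
      exacts [hval i j p (mem_of_dvd_part hP _ hp h), hval i j p (mem_of_dvd_part hP _ hp h)])
  have hjm : j ∈ Finset.univ.erase i := Finset.mem_erase.2 ⟨hij.symm, Finset.mem_univ _⟩
  rw [← Finset.mul_prod_erase _ _ (Finset.mem_univ i), ← Finset.mul_prod_erase _ _ hjm]
  have h3 := Finset.pow_card_le_prod ((Finset.univ.erase i).erase j) (fun l => part C (n l)) q
    (fun l _ => hge l)
  rw [Finset.card_erase_of_mem hjm, Finset.card_erase_of_mem (Finset.mem_univ i),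
    Finset.card_univ, Fintype.card_fin] at h3
  generalize ∏ l ∈ (Finset.univ.erase i).erase j, part C (n l) = M at h3 ⊢
  rcases h2 with h2 | ⟨h2, u, hu, hud, hE, hu5⟩
  · refine ⟨q, hqC, nu_gen hqp.pos ?_⟩
    have e : k + 5 = 7 + (k - 1 - 1) := by omega
    rw [e, pow_add]
    calc _ ≤ 2 * (part C (n i) * part C (n j)) * M := Nat.mul_le_mul h2 h3
      _ = _ := by ring
  · refine ⟨u, ?_, ?_⟩
    · rcases (Nat.Prime.dvd_mul hu).1 hud with h | h
      exacts [mem_of_dvd_part hP _ hu h, mem_of_dvd_part hP _ hu h]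
    · have h4 := Nat.mul_le_mul h2 h3
      rw [← pow_add, mul_assoc] at h4
      unfold nu
      rw [if_pos hE]
      calc (u ^ 5) ^ (k + 5) ≤ (q ^ 6) ^ (k + 5) := Nat.pow_le_pow_left hu5 _
        _ ≤ (q ^ (6 + (k - 1 - 1))) ^ 7 := by
            rw [← pow_mul, ← pow_mul]
            exact Nat.pow_le_pow_right hqp.pos (by omega)
        _ ≤ _ := Nat.pow_le_pow_left (by omega) _

/-- `Y` is closed under the edges that end at a prime `> z` -/
def Cl (z : ℕ) (n : Fin k → ℕ) (Y : Set ℕ) : Prop :=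
  ∀ v ∈ Y, v.Prime → ∀ i p, p.Prime → z < p → p ∣ σ 1 (v ^ (n i).factorization v) → p ∈ Y

def cl (z : ℕ) (n : Fin k → ℕ) (B : Set ℕ) : Set ℕ := {p | ∀ Y, Cl z n Y → B ⊆ Y → p ∈ Y}

lemma cl_cl (z : ℕ) (n : Fin k → ℕ) (B : Set ℕ) : Cl z n (cl z n B) :=
  fun v hv hvp i p hp hz hd Y hY hB => hY v (hv Y hY hB) hvp i p hp hz hd

lemma sub_cl (z : ℕ) (n : Fin k → ℕ) (B : Set ℕ) : B ⊆ cl z n B := fun _ hp _ _ hB => hB hp

open Classical in
lemma InCl.diff {z : ℕ} {n : Fin k → ℕ} {U : Finset ℕ} (h : InCl n U)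
    (hU : ∀ p ∈ U, p.Prime ∧ z < p) {Y : Set ℕ} (hY : Cl z n Y) :
    InCl n (U.filter (fun p => p ∉ Y)) := by
  intro p hp v hv hvU i hd
  obtain ⟨hp1, hp2⟩ := Finset.mem_filter.1 hp
  by_cases h1 : v ∈ U
  · have h2 : v ∈ Y := by
      by_contra h3
      exact hvU (Finset.mem_filter.2 ⟨h1, h3⟩)
    exact hp2 (hY v h2 hv i p (hU p hp1).1 (hU p hp1).2 hd)
  · exact h p hp1 v hv h1 i hd

lemma roots_aux (hk : 2 ≤ k) {n : Fin k → ℕ} (hn : PF n) (z : ℕ) (hz : 2 * (k + 5) ≤ z) :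
    ∀ U : Finset ℕ, (∀ p ∈ U, p.Prime ∧ z < p ∧ ∃ i, p ∣ n i) → InCl n U →
      ∃ R ⊆ U, ∏ q ∈ R, nu q ^ (k + 5) ≤ (2 ^ R.card * ∏ i, part U (n i)) ^ 7 ∧
        ∀ Y, Cl z n Y → (∀ q ∈ R, q ∈ Y) → ∀ p ∈ U, p ∈ Y := by
  classical
  intro U
  induction U using Finset.strongInduction with
  | H U ih =>
  intro hU hin
  have hP : ∀ p ∈ U, p.Prime := fun p hp => (hU p hp).1
  rcases U.eq_empty_or_nonempty with rfl | hne
  · exact ⟨∅, Finset.Subset.refl _, by simp [part], fun Y _ _ p hp => absurd hp (by simp)⟩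
  obtain ⟨C, hC, hmin⟩ := Finset.exists_min_image
    (U.powerset.filter (fun C => C.Nonempty ∧ InCl n C)) Finset.card
    ⟨U, Finset.mem_filter.2 ⟨Finset.mem_powerset_self _, hne, hin⟩⟩
  obtain ⟨hC1, hC2, hC3⟩ := Finset.mem_filter.1 hC
  have hCU := Finset.mem_powerset.1 hC1
  have hqz := (hU _ (hCU (Finset.min'_mem C hC2))).2.1
  obtain ⟨q, hqC, hloc⟩ := local_mass hk hn C (C.min' hC2) (by omega) (Finset.min'_mem _ _)
    (fun p hp => ⟨hP p (hCU hp), Finset.min'_le _ _ hp, (hU p (hCU hp)).2.2⟩) hC3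
  have hqcl : q ∈ cl z n {q} := sub_cl z n {q} rfl
  have hCcl : ∀ p ∈ C, p ∈ cl z n {q} := by
    intro p hp
    by_contra hc
    have h1 := hmin (C.filter (fun p => p ∉ cl z n {q})) (Finset.mem_filter.2
      ⟨Finset.mem_powerset.2 ((Finset.filter_subset _ _).trans hCU),
        ⟨p, Finset.mem_filter.2 ⟨hp, hc⟩⟩,
        hC3.diff (fun r hr => ⟨hP r (hCU hr), (hU r (hCU hr)).2.1⟩) (cl_cl z n {q})⟩)
    have h2 : (C.filter (fun p => p ∉ cl z n {q})).card < C.card :=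
      Finset.card_lt_card (Finset.filter_ssubset.2 ⟨q, hqC, fun h => h hqcl⟩)
    omega
  set U' := U.filter (fun p => p ∉ cl z n {q}) with hU'
  have hsub : U' ⊆ U := Finset.filter_subset _ _
  obtain ⟨R, hR1, hR2, hR3⟩ := ih U' (Finset.filter_ssubset.2 ⟨q, hCU hqC, fun h => h hqcl⟩)
    (fun p hp => hU p (hsub hp))
    (hin.diff (fun r hr => ⟨hP r hr, (hU r hr).2.1⟩) (cl_cl z n {q}))
  have hqR : q ∉ R := fun h => (Finset.mem_filter.1 (hR1 h)).2 hqcl
  refine ⟨insert q R, Finset.insert_subset (hCU hqC) (hR1.trans hsub), ?_, ?_⟩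
  · rw [Finset.prod_insert hqR, Finset.card_insert_of_notMem hqR]
    have h1 : (∏ i, part C (n i)) * ∏ i, part U' (n i) ≤ ∏ i, part U (n i) := by
      rw [← Finset.prod_mul_distrib]
      refine Finset.prod_le_prod' (fun i _ => ?_)
      unfold part
      have hdis : Disjoint C U' := by
        refine Finset.disjoint_left.2 (fun p hp hp' => ?_)
        rw [hU', Finset.mem_filter] at hp'
        exact hp'.2 (hCcl p hp)
      rw [← Finset.prod_union hdis]
      exact Finset.prod_le_prod_of_subset_of_one_le' (Finset.union_subset hCU hsub)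
        (fun p hp _ => Nat.one_le_pow _ _ (hP p hp).pos)
    calc _ ≤ (2 * ∏ i, part C (n i)) ^ 7 * (2 ^ R.card * ∏ i, part U' (n i)) ^ 7 :=
          Nat.mul_le_mul hloc hR2
      _ = (2 ^ (R.card + 1) * ((∏ i, part C (n i)) * ∏ i, part U' (n i))) ^ 7 := by ring
      _ ≤ _ := Nat.pow_le_pow_left (Nat.mul_le_mul_left _ h1) _
  · intro Y hY hRY p hp
    by_cases h1 : p ∈ cl z n {q}
    · exact h1 Y hY (Set.singleton_subset_iff.2 (hRY q (Finset.mem_insert_self _ _)))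
    · exact hR3 Y hY (fun r hr => hRY r (Finset.mem_insert_of_mem hr)) p
        (Finset.mem_filter.2 ⟨hp, h1⟩)

/-- `T` generates all primes of the tuple -/
def Gen (z : ℕ) (n : Fin k → ℕ) (T : Finset ℕ) : Prop :=
  ∀ Y, Cl z n Y → (∀ q ∈ T, q ∈ Y) → ∀ i p, p.Prime → p ∣ n i → p ∈ Y

theorem roots (hk : 2 ≤ k) {n : Fin k → ℕ} (hn : PF n) (z : ℕ) (hz : 2 * (k + 5) ≤ z) :
    ∃ R : Finset ℕ, (∀ q ∈ R, z < q ∧ ∃ i, q ∣ n i) ∧
      ∏ q ∈ R, nu q ^ (k + 5) ≤ (2 ^ R.card * ∏ i, n i) ^ 7 ∧ Gen z n (Finset.range (z + 1) ∪ R) := by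
  classical
  set B : Set ℕ := {p | p ≤ z} with hB
  set S := (Finset.univ.biUnion (fun i => (n i).primeFactors)) with hS
  have hSm : ∀ p, p ∈ S ↔ p.Prime ∧ ∃ i, p ∣ n i := by
    intro p
    simp only [hS, Finset.mem_biUnion, Finset.mem_univ, true_and, Nat.mem_primeFactors]
    exact ⟨fun ⟨i, h1, h2, _⟩ => ⟨h1, i, h2⟩, fun ⟨h1, i, h2⟩ => ⟨i, h1, h2, hn.ne i⟩⟩
  set U := S.filter (fun p => p ∉ cl z n B) with hU
  have hUp : ∀ p ∈ U, p.Prime ∧ z < p ∧ ∃ i, p ∣ n i := by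
    intro p hp
    obtain ⟨h1, h2⟩ := Finset.mem_filter.1 hp
    exact ⟨((hSm p).1 h1).1, not_le.1 (fun h => h2 (sub_cl z n B h)), ((hSm p).1 h1).2⟩
  obtain ⟨R, hR1, hR2, hR3⟩ := roots_aux hk hn z hz U hUp (by
    intro p hp v hv hvU i hd
    obtain ⟨h1, h2⟩ := Finset.mem_filter.1 hp
    by_cases h3 : v ∈ cl z n B
    · exact h2 (cl_cl z n B v h3 hv i p (hUp p hp).1 (hUp p hp).2.1 hd)
    · have h4 : ¬ v ∣ n i := fun h => hvU (Finset.mem_filter.2 ⟨(hSm v).2 ⟨hv, i, h⟩, h3⟩)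
      rw [Nat.factorization_eq_zero_of_not_dvd h4] at hd
      exact (hUp p hp).1.one_lt.ne' (by simpa using hd))
  refine ⟨R, fun q hq => (hUp q (hR1 hq)).2, hR2.trans (Nat.pow_le_pow_left (Nat.mul_le_mul_left _
    (Finset.prod_le_prod' (fun i _ => Nat.le_of_dvd (Nat.pos_of_ne_zero (hn.ne i))
      (part_dvd (fun p hp => (hUp p hp).1) (hn.ne i))))) _), ?_⟩
  intro Y hY hT i p hp hd
  by_cases h1 : p ∈ cl z n B
  · exact h1 Y hY (fun r hr => hT r (Finset.mem_union_left _ (Finset.mem_range.2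
      (Nat.lt_succ_of_le hr))))
  · exact hR3 Y hY (fun q hq => hT q (Finset.mem_union_right _ hq)) p
      (Finset.mem_filter.2 ⟨(hSm p).2 ⟨hp, i, hd⟩, h1⟩)

end Pool.Agent.Lib.MP_c05f82_nt.PS
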